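

set_option autoImplicit false

/-!
Search trees with numeric leaves, evaluated fast by the kernel, and packed tables.
-/

namespace KC

/-- Search tree: `N k a b` goes to `b` if `k ≤ i` and to `a` otherwise. -/
inductive BT
  | L (n : Nat)
  | N (k : Nat) (a b : BT)

/-- Look-up. -/
noncomputable def BT.get (t : BT) : Nat → Nat :=
  BT.rec (motive := fun _ => Nat → Nat) (fun n _ => n)
    (fun k _ _ ia ib i => Bool.rec (motive := fun _ => Nat) (ia i) (ib i) (Nat.ble k i)) t

/-- Entry `i` of a packed table: 16 entries of `W` bits in each leaf. -/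
noncomputable def pk (T : BT) (W M i : Nat) : Nat :=
  Nat.land (Nat.shiftRight (T.get (Nat.shiftRight i 4)) (Nat.mul W (Nat.land i 15))) M

/-- Force the evaluation of a number. -/
noncomputable def fc {α : Type} (x : Nat) (k : Nat → α) : α :=
  Nat.rec (motive := fun _ => α) (k 0) (fun a _ => k (Nat.succ a)) x

theorem fc_eq {α : Type} (x : Nat) (k : Nat → α) : fc x k = k x := by
  cases x <;> rfl

@[simp] theorem BT.get_L (n i : Nat) : (BT.L n).get i = n := rfl

theorem BT.get_N (k : Nat) (a b : BT) (i : Nat) :
    (BT.N k a b).get i = bif Nat.ble k i then b.get i else a.get i := by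
  change Bool.rec (motive := fun _ => Nat) (a.get i) (b.get i) (Nat.ble k i) = _
  cases Nat.ble k i <;> rfl

end KC
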