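import Pool.Agent.Helper13.KC.Data5

set_option autoImplicit false
set_option maxRecDepth 100000

namespace KC

open BT

theorem ck5_1 : T5base.ck1 = true := by decide +kernel

theorem ck5_2 : T5base.ck2 ag5 ac5 = true := by decide +kernel

theorem ck5_3 : Tab.ck3 ac5 = true := by decide +kernel

theorem ck5_4_0 : T5base.ck4 0 = true := by decide +kernel

theorem ck5_4_1 : T5base.ck4 1 = true := by decide +kernel

theorem ck5_4_2 : T5base.ck4 2 = true := by decide +kernel

theorem ck5_4_3 : T5base.ck4 3 = true := by decide +kernel

theorem ck5_4_4 : T5base.ck4 4 = true := by decide +kernel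

theorem ck5_4_5 : T5base.ck4 5 = true := by decide +kernel

theorem ck5_4_6 : T5base.ck4 6 = true := by decide +kernel

theorem ck5_4_7 : T5base.ck4 7 = true := by decide +kernel

theorem ck5_4_8 : T5base.ck4 8 = true := by decide +kernel

theorem ck5_4_9 : T5base.ck4 9 = true := by decide +kernel

theorem ck5_4_10 : T5base.ck4 10 = true := by decide +kernel

theorem ck5_5 : ∀ t < 11, T5base.ck5 (ag5 t) t = true := by decide +kernel

end KC
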