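import Pool.Agent.Helper91.KF.F2

set_option autoImplicit false

/-!
Kernel checker for flag algebra certificates of order 7 for K4^- : masks of 35 bits.
-/

namespace KC

open KF

/-- The list of triples in colex order. -/
def trL : List (Nat × Nat × Nat) :=
  [(0, 1, 2), (0, 1, 3), (0, 2, 3), (1, 2, 3), (0, 1, 4), (0, 2, 4), (1, 2, 4), (0, 3, 4),
   (1, 3, 4), (2, 3, 4), (0, 1, 5), (0, 2, 5), (1, 2, 5), (0, 3, 5), (1, 3, 5), (2, 3, 5),
   (0, 4, 5), (1, 4, 5), (2, 4, 5), (3, 4, 5), (0, 1, 6), (0, 2, 6), (1, 2, 6), (0, 3, 6),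
   (1, 3, 6), (2, 3, 6), (0, 4, 6), (1, 4, 6), (2, 4, 6), (3, 4, 6), (0, 5, 6), (1, 5, 6),
   (2, 5, 6), (3, 5, 6), (4, 5, 6)]

/-- The triple with index `t`. -/
def tri (t : Nat) : Nat × Nat × Nat := trL.getD t (0, 0, 0)

/-- Index of a sorted triple. -/
def ix0 (a b c : Nat) : Nat := c * (c - 1) * (c - 2) / 6 + b * (b - 1) / 2 + a

/-- Index of a triple, `35` if two entries are equal. -/
def ixs (a b c : Nat) : Nat :=
  if a < b then
    (if b < c then ix0 a b c else if a < c ∧ c < b then ix0 a c b else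
      if c < a then ix0 c a b else 35)
  else if b < a then
    (if a < c then ix0 b a c else if b < c ∧ c < a then ix0 b c a else
      if c < b then ix0 c b a else 35)
  else 35

/-- The swap of `i` and `i + 1`. -/
def sw (i a : Nat) : Nat := if a = i then i + 1 else if a = i + 1 then i else a

/-- A vertex from a number. -/
def f7 (a : Nat) : Fin 7 := ⟨a % 7, Nat.mod_lt _ (by norm_num)⟩

/-- The swap on `Fin 7`. -/
def swF (i : Nat) (a : Fin 7) : Fin 7 := f7 (sw i a)

/-- Swap of vertices 0, 1. -/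
def t0 (m : Nat) : Nat :=
  Nat.lor (Nat.land m 30905501203) (Nat.lor (Nat.shiftLeft (Nat.land m 1151412388) 1)
    (Nat.land (Nat.shiftRight m 1) 1151412388))

/-- Swap of vertices 1, 2. -/
def t1 (m : Nat) : Nat :=
  Nat.lor (Nat.land m 27460710601) (Nat.lor (Nat.shiftLeft (Nat.land m 2299675922) 1)
    (Nat.land (Nat.shiftRight m 1) 2299675922))

/-- Swap of vertices 2, 3. -/
def t2 (m : Nat) : Nat :=
  Nat.lor (Nat.land m 20637255196) (Nat.lor (Nat.lor (Nat.shiftLeft (Nat.land m 4563664897) 1)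
    (Nat.land (Nat.shiftRight m 1) 4563664897)) (Nat.lor (Nat.shiftLeft (Nat.land m 6297696) 2)
    (Nat.land (Nat.shiftRight m 2) 6297696)))

/-- Swap of vertices 3, 4. -/
def t3 (m : Nat) : Nat :=
  Nat.lor (Nat.land m 8060936065) (Nat.lor (Nat.lor (Nat.shiftLeft (Nat.land m 8589934592) 1)
    (Nat.land (Nat.shiftRight m 1) 8589934592)) (Nat.lor (Nat.shiftLeft (Nat.land m 58777614) 3)
    (Nat.land (Nat.shiftRight m 3) 58777614)))

/-- Swap of vertices 4, 5. -/
def t4 (m : Nat) : Nat :=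
  Nat.lor (Nat.land m 17246912527) (Nat.lor (Nat.lor (Nat.shiftLeft (Nat.land m 1006632960) 4)
    (Nat.land (Nat.shiftRight m 4) 1006632960)) (Nat.lor (Nat.shiftLeft (Nat.land m 1008) 6)
    (Nat.land (Nat.shiftRight m 6) 1008)))

/-- Swap of vertices 5, 6. -/
def t5 (m : Nat) : Nat :=
  Nat.lor (Nat.land m 33285997567) (Nat.lor (Nat.shiftLeft (Nat.land m 1047552) 10)
    (Nat.land (Nat.shiftRight m 10) 1047552))

/-- Swap of the vertices `i`, `i + 1` on masks. -/
def tau (i m : Nat) : Nat :=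
  bif Nat.beq i 0 then t0 m else bif Nat.beq i 1 then t1 m else bif Nat.beq i 2 then t2 m else
  bif Nat.beq i 3 then t3 m else bif Nat.beq i 4 then t4 m else t5 m

theorem one_shift_bit (m A s t : Nat) :
    (Nat.lor (Nat.shiftLeft (Nat.land m A) s) (Nat.land (Nat.shiftRight m s) A)).testBit t =
      ((decide (s ≤ t) && (m.testBit (t - s) && A.testBit (t - s))) ||
        (m.testBit (s + t) && A.testBit t)) := by
  change ((m &&& A) <<< s ||| (m >>> s) &&& A).testBit t = _
  rw [Nat.testBit_lor, Nat.testBit_land, Nat.testBit_shiftLeft, Nat.testBit_land,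
    Nat.testBit_shiftRight]

theorem lor_bit (a b t : Nat) : (Nat.lor a b).testBit t = (a.testBit t || b.testBit t) :=
  Nat.testBit_lor ..

theorem land_bit (a b t : Nat) : (Nat.land a b).testBit t = (a.testBit t && b.testBit t) :=
  Nat.testBit_land ..

/-- The index read by the swap. -/
def ba (i t : Nat) : Nat := ixs (sw i (tri t).1) (sw i (tri t).2.1) (sw i (tri t).2.2)

/-- Check of one bit of a one-shift swap. -/
def ok1 (F A s t u : Nat) : Bool :=
  (F.testBit t && !(A.testBit t) && !(decide (s ≤ t) && A.testBit (t - s)) && u == t) ||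
  (!F.testBit t && A.testBit t && !(decide (s ≤ t) && A.testBit (t - s)) && u == s + t) ||
  (!F.testBit t && !A.testBit t && (decide (s ≤ t) && A.testBit (t - s)) && u == t - s)

/-- Check of one bit of a two-shift swap. -/
def ok2 (F A s B r t u : Nat) : Bool :=
  (F.testBit t && !(A.testBit t) && !(decide (s ≤ t) && A.testBit (t - s)) &&
    !(B.testBit t) && !(decide (r ≤ t) && B.testBit (t - r)) && u == t) ||
  (!F.testBit t && A.testBit t && !(decide (s ≤ t) && A.testBit (t - s)) &&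
    !(B.testBit t) && !(decide (r ≤ t) && B.testBit (t - r)) && u == s + t) ||
  (!F.testBit t && !A.testBit t && (decide (s ≤ t) && A.testBit (t - s)) &&
    !(B.testBit t) && !(decide (r ≤ t) && B.testBit (t - r)) && u == t - s) ||
  (!F.testBit t && !A.testBit t && !(decide (s ≤ t) && A.testBit (t - s)) &&
    (B.testBit t) && !(decide (r ≤ t) && B.testBit (t - r)) && u == r + t) ||
  (!F.testBit t && !A.testBit t && !(decide (s ≤ t) && A.testBit (t - s)) &&
    !(B.testBit t) && (decide (r ≤ t) && B.testBit (t - r)) && u == t - r)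

theorem sel1 (m F A s t u : Nat) (h : ok1 F A s t u = true) :
    (Nat.lor (Nat.land m F) (Nat.lor (Nat.shiftLeft (Nat.land m A) s)
      (Nat.land (Nat.shiftRight m s) A))).testBit t = m.testBit u := by
  rw [lor_bit, one_shift_bit, land_bit]
  unfold ok1 at h
  generalize hc : decide (s ≤ t) = c at *
  generalize ha : A.testBit (t - s) = a at *
  generalize hA : A.testBit t = a' at *
  generalize hF : F.testBit t = f at *
  cases c <;> cases a <;> cases a' <;> cases f <;> simp_all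

theorem sel2 (m F A s B r t u : Nat) (h : ok2 F A s B r t u = true) :
    (Nat.lor (Nat.land m F) (Nat.lor (Nat.lor (Nat.shiftLeft (Nat.land m A) s)
      (Nat.land (Nat.shiftRight m s) A)) (Nat.lor (Nat.shiftLeft (Nat.land m B) r)
      (Nat.land (Nat.shiftRight m r) B)))).testBit t = m.testBit u := by
  rw [lor_bit, lor_bit, one_shift_bit, one_shift_bit, land_bit]
  unfold ok2 at h
  generalize hc : (decide (s ≤ t) && A.testBit (t - s)) = c at *
  generalize hd : (decide (r ≤ t) && B.testBit (t - r)) = d at *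
  generalize hA : A.testBit t = a' at *
  generalize hB : B.testBit t = b' at *
  generalize hF : F.testBit t = f at *
  have e1 : (decide (s ≤ t) && (m.testBit (t - s) && A.testBit (t - s))) =
      (m.testBit (t - s) && c) := by
    rw [← hc]; cases decide (s ≤ t) <;> cases m.testBit (t - s) <;> simp
  have e2 : (decide (r ≤ t) && (m.testBit (t - r) && B.testBit (t - r))) =
      (m.testBit (t - r) && d) := by
    rw [← hd]; cases decide (r ≤ t) <;> cases m.testBit (t - r) <;> simp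
  rw [e1, e2]
  clear hc hd e1 e2
  cases c <;> cases d <;> cases a' <;> cases b' <;> cases f <;> simp_all

theorem key0 : ∀ t < 35, ok1 30905501203 1151412388 1 t (ba 0 t) = true := by decide +kernel
theorem key1 : ∀ t < 35, ok1 27460710601 2299675922 1 t (ba 1 t) = true := by decide +kernel
theorem key2 : ∀ t < 35, ok2 20637255196 4563664897 1 6297696 2 t (ba 2 t) = true := by
  decide +kernel
theorem key3 : ∀ t < 35, ok2 8060936065 8589934592 1 58777614 3 t (ba 3 t) = true := by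
  decide +kernel
theorem key4 : ∀ t < 35, ok2 17246912527 1006632960 4 1008 6 t (ba 4 t) = true := by
  decide +kernel
theorem key5 : ∀ t < 35, ok1 33285997567 1047552 10 t (ba 5 t) = true := by decide +kernel

theorem tau_bit (i m t : Nat) (hi : i < 6) (ht : t < 35) :
    (tau i m).testBit t = m.testBit (ba i t) := by
  have : i = 0 ∨ i = 1 ∨ i = 2 ∨ i = 3 ∨ i = 4 ∨ i = 5 := by omega
  rcases this with rfl | rfl | rfl | rfl | rfl | rfl
  · exact sel1 _ _ _ _ _ _ (key0 t ht)
  · exact sel1 _ _ _ _ _ _ (key1 t ht)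
  · exact sel2 _ _ _ _ _ _ _ _ (key2 t ht)
  · exact sel2 _ _ _ _ _ _ _ _ (key3 t ht)
  · exact sel2 _ _ _ _ _ _ _ _ (key4 t ht)
  · exact sel1 _ _ _ _ _ _ (key5 t ht)

/-! The mask of a labelled 3-graph. -/

section
variable {V : Type}

/-- The 35-bit mask of the 3-graph induced on a 7-tuple (colex order). -/
def msk (E : V → V → V → Bool) (φ : Fin 7 → V) : Nat :=
  Nat.ofBits (fun t : Fin 35 => E (φ (f7 (tri t.1).1)) (φ (f7 (tri t.1).2.1)) (φ (f7 (tri t.1).2.2)))

theorem msk_lt (E : V → V → V → Bool) (φ : Fin 7 → V) : msk E φ < 2 ^ 35 :=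
  Nat.ofBits_lt_two_pow _

theorem msk_testBit (E : V → V → V → Bool) (φ : Fin 7 → V) (t : Nat) (ht : t < 35) :
    (msk E φ).testBit t =
      E (φ (f7 (tri t).1)) (φ (f7 (tri t).2.1)) (φ (f7 (tri t).2.2)) :=
  Nat.testBit_ofBits_lt _ t ht

theorem ixs_spec : ∀ a b c : Fin 7,
    (ixs a.1 b.1 c.1 = 35 ∧ (a = b ∨ b = c ∨ a = c)) ∨
    (ixs a.1 b.1 c.1 < 35 ∧
      ((f7 (tri (ixs a.1 b.1 c.1)).1 = a ∧ f7 (tri (ixs a.1 b.1 c.1)).2.1 = b ∧
          f7 (tri (ixs a.1 b.1 c.1)).2.2 = c) ∨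
       (f7 (tri (ixs a.1 b.1 c.1)).1 = a ∧ f7 (tri (ixs a.1 b.1 c.1)).2.1 = c ∧
          f7 (tri (ixs a.1 b.1 c.1)).2.2 = b) ∨
       (f7 (tri (ixs a.1 b.1 c.1)).1 = b ∧ f7 (tri (ixs a.1 b.1 c.1)).2.1 = a ∧
          f7 (tri (ixs a.1 b.1 c.1)).2.2 = c) ∨
       (f7 (tri (ixs a.1 b.1 c.1)).1 = b ∧ f7 (tri (ixs a.1 b.1 c.1)).2.1 = c ∧
          f7 (tri (ixs a.1 b.1 c.1)).2.2 = a) ∨
       (f7 (tri (ixs a.1 b.1 c.1)).1 = c ∧ f7 (tri (ixs a.1 b.1 c.1)).2.1 = a ∧
          f7 (tri (ixs a.1 b.1 c.1)).2.2 = b) ∨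
       (f7 (tri (ixs a.1 b.1 c.1)).1 = c ∧ f7 (tri (ixs a.1 b.1 c.1)).2.1 = b ∧
          f7 (tri (ixs a.1 b.1 c.1)).2.2 = a))) := by
  decide +kernel

theorem msk_bit {E : V → V → V → Bool} (hE : K4m E) (φ : Fin 7 → V) (a b c : Fin 7) :
    (msk E φ).testBit (ixs a.1 b.1 c.1) = E (φ a) (φ b) (φ c) := by
  rcases ixs_spec a b c with ⟨h35, h⟩ | ⟨h35, h⟩
  · have h0 : (msk E φ).testBit (ixs a.1 b.1 c.1) = false := by
      rw [h35]
      exact Nat.testBit_eq_false_of_lt (msk_lt E φ)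
    rw [h0]
    rcases h with rfl | rfl | rfl
    · exact (hE.irr _ _).symm
    · rw [hE.s12, hE.s23, hE.irr]
    · rw [hE.s23, hE.irr]
  · rw [msk_testBit E φ _ h35]
    rcases h with ⟨h1, h2, h3⟩ | ⟨h1, h2, h3⟩ | ⟨h1, h2, h3⟩ | ⟨h1, h2, h3⟩ | ⟨h1, h2, h3⟩ |
      ⟨h1, h2, h3⟩ <;> rw [h1, h2, h3]
    · exact hE.s23 _ _ _
    · exact hE.s12 _ _ _
    · rw [hE.s23, hE.s12]
    · rw [hE.s12, hE.s23]
    · rw [hE.s23, hE.s12, hE.s23]

theorem swF_val : ∀ i < 6, ∀ a : Fin 7, (swF i a).1 = sw i a.1 := by decide +kernel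

theorem swF_inj : ∀ i < 6, Function.Injective (swF i) := by
  intro i hi
  have : ∀ i < 6, ∀ a : Fin 7, swF i (swF i a) = a := by decide +kernel
  exact Function.LeftInverse.injective (this i hi)

theorem tri_f7 : ∀ t < 35, (f7 (tri t).1).1 = (tri t).1 ∧ (f7 (tri t).2.1).1 = (tri t).2.1 ∧
    (f7 (tri t).2.2).1 = (tri t).2.2 := by decide +kernel

end

theorem one_shift_lt (m A s : Nat) (hs : s ≤ 35) (hA : A < 2 ^ (35 - s)) :
    Nat.lor (Nat.shiftLeft (Nat.land m A) s) (Nat.land (Nat.shiftRight m s) A) < 2 ^ 35 := by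
  refine Nat.lt_pow_two_of_testBit _ fun j hj => ?_
  rw [one_shift_bit]
  have h1 : A.testBit (j - s) = false :=
    Nat.testBit_eq_false_of_lt (lt_of_lt_of_le hA (Nat.pow_le_pow_right (by norm_num) (by omega)))
  have h2 : A.testBit j = false :=
    Nat.testBit_eq_false_of_lt (lt_of_lt_of_le hA (Nat.pow_le_pow_right (by norm_num) (by omega)))
  simp [h1, h2]

theorem lor_lt {a b : Nat} (ha : a < 2 ^ 35) (hb : b < 2 ^ 35) : Nat.lor a b < 2 ^ 35 :=
  Nat.or_lt_two_pow ha hb

theorem land_lt {m F : Nat} (hF : F < 2 ^ 35) : Nat.land m F < 2 ^ 35 :=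
  lt_of_le_of_lt Nat.and_le_right hF

theorem tau_lt (i m : Nat) : tau i m < 2 ^ 35 := by
  unfold tau
  cases Nat.beq i 0 <;> cases Nat.beq i 1 <;> cases Nat.beq i 2 <;> cases Nat.beq i 3 <;>
    cases Nat.beq i 4 <;> simp only [cond_true, cond_false, t0, t1, t2, t3, t4, t5]
  all_goals
    first
    | exact lor_lt (land_lt (by norm_num)) (one_shift_lt _ _ _ (by norm_num) (by norm_num))
    | exact lor_lt (land_lt (by norm_num)) (lor_lt
        (one_shift_lt _ _ _ (by norm_num) (by norm_num))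
        (one_shift_lt _ _ _ (by norm_num) (by norm_num)))

/-- Relabelling a 7-tuple by an adjacent swap. -/
theorem msk_swap {V : Type} {E : V → V → V → Bool} (hE : K4m E) (φ : Fin 7 → V) (i : Nat)
    (hi : i < 6) : msk E (fun a => φ (swF i a)) = tau i (msk E φ) := by
  refine Nat.eq_of_testBit_eq fun t => ?_
  by_cases ht : t < 35
  · rw [msk_testBit _ _ _ ht, tau_bit _ _ _ hi ht]
    obtain ⟨h1, h2, h3⟩ := tri_f7 t ht
    have := msk_bit hE φ (swF i (f7 (tri t).1)) (swF i (f7 (tri t).2.1)) (swF i (f7 (tri t).2.2))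
    rw [swF_val i hi, swF_val i hi, swF_val i hi, h1, h2, h3] at this
    rw [← this]
    rfl
  · rw [Nat.testBit_eq_false_of_lt (lt_of_lt_of_le (msk_lt _ _)
      (Nat.pow_le_pow_right (by norm_num) (by omega))),
      Nat.testBit_eq_false_of_lt (lt_of_lt_of_le (tau_lt _ _)
      (Nat.pow_le_pow_right (by norm_num) (by omega)))]

/-- The bit of a triple of vertices (in any order). -/
def bt (m : Nat) (a b c : Fin 7) : Bool := m.testBit (ixs a.1 b.1 c.1)

theorem tau_bt (i m : Nat) (hi : i < 6) (a b c : Fin 7) :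
    bt (tau i m) a b c = (if ixs a.1 b.1 c.1 = 35 then false else
      bt m (swF i a) (swF i b) (swF i c)) := by
  have key : ∀ i < 6, ∀ a b c : Fin 7, ixs a.1 b.1 c.1 = 35 ∨
      (ixs a.1 b.1 c.1 < 35 ∧ ba i (ixs a.1 b.1 c.1) =
        ixs (swF i a).1 (swF i b).1 (swF i c).1) := by decide +kernel
  rcases key i hi a b c with h | ⟨h, h'⟩
  · rw [if_pos h, bt, h]
    exact Nat.testBit_eq_false_of_lt (tau_lt _ _)
  · rw [if_neg (by omega), bt, bt, tau_bit _ _ _ hi h, h']

/-- Masks of K4^- -free 3-graphs on 7 labelled vertices. -/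
structure Adm (m : Nat) : Prop where
  lt : m < 2 ^ 35
  free : ∀ a b c d : Fin 7, bt m a b c = true → bt m a b d = true → bt m a c d = true → False

theorem adm_msk {V : Type} {E : V → V → V → Bool} (hE : K4m E) (φ : Fin 7 → V) :
    Adm (msk E φ) :=
  ⟨msk_lt _ _, fun a b c d h1 h2 h3 => by
    unfold bt at h1 h2 h3
    rw [msk_bit hE] at h1 h2 h3
    exact hE.free _ _ _ _ h1 h2 h3⟩

theorem adm_tau {m : Nat} (h : Adm m) (i : Nat) (hi : i < 6) : Adm (tau i m) := by
  refine ⟨tau_lt _ _, fun a b c d h1 h2 h3 => ?_⟩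
  rw [tau_bt _ _ hi] at h1 h2 h3
  split at h1
  · exact absurd h1 (by decide)
  split at h2
  · exact absurd h2 (by decide)
  split at h3
  · exact absurd h3 (by decide)
  exact h.free _ _ _ _ h1 h2 h3

/-- Apply a word in the swaps (first letter first). -/
def awl : List Nat → Nat → Nat
  | [], m => m
  | i :: l, m => awl l (tau i m)

/-- All letters are below 6. -/
def wok (l : List Nat) : Bool := l.all (fun i => Nat.blt i 6)

theorem wok_cons {i : Nat} {l : List Nat} : wok (i :: l) = true ↔ i < 6 ∧ wok l = true := by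
  simp [wok, Nat.blt_eq]

theorem adm_awl : ∀ (l : List Nat) {m : Nat}, wok l = true → Adm m → Adm (awl l m)
  | [], _, _, h => h
  | i :: l, m, hl, h => by
    obtain ⟨h1, h2⟩ := wok_cons.1 hl
    exact adm_awl l h2 (adm_tau h i h1)

theorem awl_append : ∀ (l k : List Nat) (m : Nat), awl (l ++ k) m = awl k (awl l m)
  | [], _, _ => rfl
  | i :: l, k, m => awl_append l k (tau i m)

section
variable {V : Type} [Fintype V]

theorem Ev_tau {E : V → V → V → Bool} (hE : K4m E) (w : V → ℝ) (hw : ∑ v, w v = 1) (i : Nat)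
    (hi : i < 6) (f : Nat → ℝ) :
    Ev 7 w (fun φ => f (tau i (msk E φ))) = Ev 7 w (fun φ => f (msk E φ)) := by
  have := Ev_inj (swF i) (swF_inj i hi) w hw (fun φ => f (msk E φ))
  rw [← this]
  congr 1
  funext φ
  rw [msk_swap hE φ i hi]

theorem Ev_awl {E : V → V → V → Bool} (hE : K4m E) (w : V → ℝ) (hw : ∑ v, w v = 1)
    (f : Nat → ℝ) : ∀ l : List Nat, wok l = true →
    Ev 7 w (fun φ => f (awl l (msk E φ))) = Ev 7 w (fun φ => f (msk E φ))
  | [], _ => rfl
  | i :: l, hl => by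
    obtain ⟨h1, h2⟩ := wok_cons.1 hl
    rw [← Ev_awl hE w hw f l h2]
    exact Ev_tau hE w hw i h1 (fun m => f (awl l m))

end

/-! Words as vertex permutations. -/

theorem tau_bt' {m : Nat} (hm : m < 2 ^ 35) (i : Nat) (hi : i < 6) (a b c : Fin 7) :
    bt (tau i m) a b c = bt m (swF i a) (swF i b) (swF i c) := by
  rw [tau_bt i m hi]
  have key : ∀ i < 6, ∀ a b c : Fin 7, ixs a.1 b.1 c.1 = 35 →
      ixs (swF i a).1 (swF i b).1 (swF i c).1 = 35 := by decide +kernel
  split
  · rename_i h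
    rw [bt, key i hi a b c h]
    exact (Nat.testBit_eq_false_of_lt hm).symm
  · rfl

/-- The vertex permutation of a word. -/
def vw (l : List Nat) (a : Fin 7) : Fin 7 := l.foldr (fun i x => swF i x) a

theorem awl_bt : ∀ (l : List Nat) {m : Nat}, wok l = true → m < 2 ^ 35 → ∀ a b c : Fin 7,
    bt (awl l m) a b c = bt m (vw l a) (vw l b) (vw l c)
  | [], _, _, _, _, _, _ => rfl
  | i :: l, m, hl, hm, a, b, c => by
    obtain ⟨h1, h2⟩ := wok_cons.1 hl
    rw [awl, awl_bt l h2 (tau_lt i m), tau_bt' hm i h1]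
    rfl

theorem awl_lt : ∀ (l : List Nat) {m : Nat}, m < 2 ^ 35 → awl l m < 2 ^ 35
  | [], _, h => h
  | i :: l, m, _ => awl_lt l (tau_lt i m)

theorem tri_ixs : ∀ t < 35, ixs (f7 (tri t).1).1 (f7 (tri t).2.1).1 (f7 (tri t).2.2).1 = t := by
  decide +kernel

theorem eq_of_bt {m k : Nat} (hm : m < 2 ^ 35) (hk : k < 2 ^ 35)
    (h : ∀ a b c : Fin 7, bt m a b c = bt k a b c) : m = k := by
  refine Nat.eq_of_testBit_eq fun t => ?_
  by_cases ht : t < 35
  · have := h (f7 (tri t).1) (f7 (tri t).2.1) (f7 (tri t).2.2)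
    unfold bt at this
    rwa [tri_ixs t ht] at this
  · rw [Nat.testBit_eq_false_of_lt (lt_of_lt_of_le hm
      (Nat.pow_le_pow_right (by norm_num) (by omega))),
      Nat.testBit_eq_false_of_lt (lt_of_lt_of_le hk
      (Nat.pow_le_pow_right (by norm_num) (by omega)))]

/-- Two words with the same vertex permutation act in the same way. -/
theorem awl_congr {l k : List Nat} (hl : wok l = true) (hk : wok k = true)
    (h : ∀ a : Fin 7, vw l a = vw k a) {m : Nat} (hm : m < 2 ^ 35) : awl l m = awl k m :=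
  eq_of_bt (awl_lt l hm) (awl_lt k hm) fun a b c => by
    rw [awl_bt l hl hm, awl_bt k hk hm, h, h, h]

theorem wok_append {l k : List Nat} (hl : wok l = true) (hk : wok k = true) :
    wok (l ++ k) = true := by
  unfold wok at *
  rw [List.all_append, hl, hk]; rfl

theorem vw_append (l k : List Nat) (a : Fin 7) : vw (l ++ k) a = vw l (vw k a) := by
  unfold vw
  rw [List.foldr_append]

end KC
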