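import Pool.Agent.Helper13.KC.S1

set_option autoImplicit false
set_option maxRecDepth 100000

namespace KC

open BT

/-- Flag indices. -/
def FI1 : BT :=
  (L 25108406947392818808668410589059245271436383483694592098304)

/-- The tables without the quadratic form. -/
def T1base : Tab where
  CW := L 0
  FI := FI1
  FL := L 0
  QT := L 0
  RB := 0
  NF := 5
  SG := 0
  OFF := 0
  NT := 1

/-- The tables with a quadratic form. -/
def T1 (QT : BT) (OFF : Nat) : Tab := { T1base with QT := QT, OFF := OFF }

theorem ek4_1 : ∀ c < 16, T1base.fi 0 c < T1base.nf 0 ∧ T1base.fi 0 (a1 1 c) = T1base.fi 0 c ∧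
    T1base.fi 0 (a1 2 c) = T1base.fi 0 c := by decide +kernel

end KC
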