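import Pool.Agent.Helper13.KC.WT

set_option autoImplicit false
set_option maxRecDepth 100000

namespace KC

open WT

/-- Tree of the transversal. -/
def tree1 : WT :=
  (B 0 (S 1 (S 2 (B 3 (B 0 E (S 1 (B 0 E E) (S 2 (S 1 (B 0 E E) E) E))) E) E) E) (B 3 (B 0 E (S 2 (S 1 (B 0 (B 3 E (S 2 (B 3 E E) E)) E) E) E)) (S 1 (B 0 (B 3 E E) (S 2 (B 3 (B 0 E (S 1 (B 0 E E) E)) (S 4 (B 3 (B 0 E (S 1 (B 0 E E) E)) E) E)) E)) (S 2 (B 3 (B 0 E E) (S 1 (B 0 (B 3 E E) E) E)) (S 4 (B 3 (B 0 E (S 1 (B 0 E E) (S 2 (S 1 (B 0 (B 3 (S 2 (S 4 (B 3 E E) E) E) (S 2 (B 3 E (S 5 (S 4 (B 3 E E) E) E)) (S 4 (B 3 E (S 2 (B 3 (S 1 (B 0 E (S 2 (B 3 E (S 4 (B 3 E E) E)) E)) E) E) E)) (S 1 (S 2 (B 3 E E) E) E)))) E) E) E))) (S 2 (B 3 (B 0 E (S 1 (B 0 E E) E)) E) E)) (S 5 (S 4 (B 3 (B 0 E (S 1 (B 0 E (S 2 (B 3 (B 0 (S 4 (B 3 E E) E) E) (S 1 (B 0 (B 3 E (S 4 (B 3 E (S 2 (B 3 (S 1 (B 0 E (S 2 (B 3 E (S 1 (B 0 (B 3 E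 (S 2 (B 3 E E) E)) E) E)) E)) E) E) E)) E)) E) E)) E)) E)) (S 2 (B 3 (B 0 E (S 1 (B 0 (S 2 (B 3 E (S 1 (B 0 E (S 2 (B 3 (B 0 E (S 1 (B 0 E E) E)) E) E)) (S 4 (B 3 (S 1 (B 0 (S 2 (B 3 E (S 1 (B 0 (B 3 E (S 4 (B 3 E E) E)) E) (S 4 (B 3 E E) E))) E) E) E) E) E))) E) E) E)) E) E)) E) E))))))

/-- Generators of the stabiliser. -/
def gens1 : List (List Nat) := [[1], [2], [4], [5], [3, 2, 1, 4, 3, 2, 5, 4, 3]]

/-- Certificate. -/
def certs1 : List (List (Nat × List Nat)) :=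
  [[(1, []), (0, []), (13, []), (14, []), (15, []), (10, []), (7, []), (6, []), (8, [0]), (9, [0]), (5, []), (11, [0]), (12, [0]), (2, []), (3, []), (4, []), (50, [0, 1, 4]), (45, [1, 2, 4]), (63, [1, 4]), (20, []), (19, []), (21, [0]), (22, [0]), (24, []), (23, []), (25, [0]), (26, [0]), (27, [0]), (30, [4]), (36, []), (28, [4]), (31, [0]), (34, [1, 0]), (44, [1, 3, 2, 4]), (32, [0, 1]), (35, [2]), (29, []), (38, []), (37, []), (39, [0]), (41, []), (40, []), (42, [0]), (62, [0, 1, 0]), (33, [0, 1, 3, 4]), (17, [0, 3, 4]), (46, [0, 1, 0]), (61, [0, 1]), (51, [1]), (49, [0]), (16, [3, 2, 4]), (48, [1]), (52, [1]), (54, []), (53, []), (56, []), (55, []), (57, [0]), (60, [0]), (59, [1]), (58, [0]), (47, [1, 0]), (43, [0, 1, 0]), (18, [3, 4]), (65, [1]), (64, [1]), (67, []), (66, []), (68, [2]), (69, [2])],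
   [(0, [0]), (11, []), (3, []), (2, []), (4, [0]), (5, [0]), (6, [0]), (12, []), (8, [1]), (10, []), (9, []), (1, []), (7, []), (19, []), (20, []), (22, []), (37, []), (38, []), (39, []), (13, []), (14, []), (21, [1]), (15, []), (23, [0]), (25, []), (24, []), (26, [1]), (29, []), (28, [2]), (27, []), (35, [1, 4]), (32, []), (31, []), (62, [1, 0, 3, 2, 4]), (34, [0, 1, 0]), (30, [3, 4]), (36, [0]), (16, []), (17, []), (18, []), (40, [0]), (42, []), (41, []), (55, [1]), (56, [1]), (50, [0, 2]), (46, [1]), (59, [0, 1]), (49, []), (48, []), (45, [0, 2]), (51, [0, 1, 0]), (54, [1]), (53, [1]), (52, [1]), (43, [1]), (44, [1]), (58, [1]), (57, [1]), (47, [1, 0]), (60, [1]), (61, [1]), (33, [0, 1, 2, 3, 4]), (63, [2]), (64, [2]), (69, []), (66, [2]), (68, []), (67, []), (65, [])],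
   [(0, [1]), (1, [1]), (2, [0]), (4, []), (3, []), (5, [1]), (19, []), (20, []), (9, []), (8, []), (10, [1]), (21, []), (22, []), (13, [0]), (15, []), (14, []), (16, [0]), (18, []), (17, []), (6, []), (7, []), (11, []), (12, []), (37, []), (38, []), (39, []), (27, []), (26, []), (32, []), (29, [1]), (34, [1, 0, 4]), (31, [2]), (28, []), (60, [0, 1, 3, 2, 4]), (30, [2, 3, 4]), (35, [0, 1, 0]), (36, [1]), (23, []), (24, []), (25, []), (55, []), (56, []), (57, []), (43, [0, 1, 0]), (58, []), (63, [2]), (59, [0]), (47, [1]), (64, [0]), (49, [2]), (50, [2]), (65, [0, 1, 0]), (52, [2]), (67, [1]), (66, [1]), (40, []), (41, []), (42, []), (44, []), (46, [0]), (33, [0, 1, 3, 2, 4]), (61, [0, 1, 0]), (62, [0, 1, 0]), (45, [2]), (48, [0]), (51, [0, 1, 0]), (54, [1]), (53, [1]), (68, [1]), (69, [0, 1, 0])],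
   [(6, []), (7, []), (2, [1]), (3, [1]), (5, []), (4, []), (0, []), (1, []), (21, []), (22, []), (15, []), (12, []), (11, []), (13, [1]), (14, [1]), (10, []), (55, [4]), (33, [0, 1]), (67, [0, 1, 0, 4]), (19, [1]), (20, [1]), (8, []), (9, []), (23, [2]), (24, [2]), (25, [2]), (26, [2]), (31, []), (28, [1]), (32, []), (30, [3]), (27, []), (29, []), (17, [1, 0]), (36, [0, 1]), (35, [1]), (34, [1, 0]), (43, [1, 4]), (62, [1, 0, 4]), (68, [0, 1, 0, 4]), (40, [2]), (41, [2]), (42, [2]), (37, [3, 4]), (45, [2]), (44, [2]), (46, [2]), (48, []), (47, []), (59, [0, 1]), (56, [1, 0]), (61, [0]), (57, [0, 1, 0]), (60, []), (58, [0]), (16, [4]), (50, [0, 1]), (52, [0, 1, 0]), (54, [0]), (49, [1, 0]), (53, []), (51, [0]), (38, [2, 3, 4]), (66, [1, 0]), (64, [0, 1, 0]), (65, [0]), (63, [0, 1]), (18, [2, 3, 2, 4]), (39, [2, 3, 2, 4]), (69, [0])],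
   [(0, [2]), (1, [2]), (50, [0, 1, 4]), (45, [1, 2, 4]), (63, [1, 4]), (36, []), (23, []), (24, []), (26, []), (27, []), (29, []), (11, [2]), (25, []), (16, []), (17, []), (18, []), (13, []), (14, []), (15, []), (37, []), (38, []), (21, [2]), (39, []), (6, []), (7, []), (12, []), (8, []), (9, []), (53, [0, 1, 4]), (10, []), (54, [0, 1]), (68, [0, 1, 0, 4]), (67, [0, 1, 0, 4]), (33, [0, 1, 0]), (66, [0, 1, 0, 2, 3, 4]), (52, [0, 1, 0, 3, 4]), (5, []), (19, []), (20, []), (22, []), (40, [3]), (41, [3]), (42, [3]), (43, [3]), (44, [3]), (3, [0, 3, 4]), (46, [3]), (47, [3]), (65, [1, 0, 4]), (69, [1, 0, 4]), (2, [3, 2, 4]), (64, [0, 3, 4]), (35, [1, 2, 3, 2, 4]), (28, [3, 2, 4]), (30, [1, 0]), (55, [3]), (56, [3]), (57, [3]), (58, [3]), (59, [3]), (60, [3]), (61, [3]), (62, [3]), (4, [3, 4]), (51, [1, 2, 4]), (48, [2, 3, 4]), (34, [1, 0, 2, 3, 2, 4]), (32, [2, 3, 2, 4]), (31, [2,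 3, 2, 4]), (49, [2, 3, 4])],
   [(0, [3]), (1, [3]), (2, [3]), (3, [3]), (4, [3]), (5, [3]), (6, [3]), (7, [3]), (8, [3]), (9, [3]), (10, [3]), (11, [3]), (12, [3]), (13, [3]), (14, [3]), (15, [3]), (43, [1]), (44, [1]), (58, [1]), (19, [3]), (20, [3]), (21, [3]), (22, [3]), (40, []), (41, []), (42, []), (46, [1]), (59, [0, 1]), (64, [0]), (47, []), (65, [1, 0, 4]), (49, []), (48, []), (45, [0, 2]), (51, [0, 1, 0]), (69, [0, 1, 0]), (61, [0, 1]), (55, []), (56, []), (57, []), (23, []), (24, []), (25, []), (16, [1]), (17, [1]), (33, [0, 2]), (26, [1]), (29, []), (32, []), (31, []), (62, [1, 0, 3, 2, 4]), (34, [0, 1, 0]), (68, [0, 1, 0, 2, 3, 2, 4]), (66, [0, 1, 0, 3, 2, 4]), (67, [0, 1, 0, 3, 2, 4]), (37, []), (38, []), (39, []), (18, [1]), (27, [1, 0]), (63, [1, 3, 2, 4]), (36, [1, 0]), (50, [0, 1, 2, 3, 4]), (60, [0, 1, 3, 4]), (28, [0]), (30, [2, 3, 4]), (53, [0, 1, 2, 3, 2,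 4]), (54, [0, 1, 2, 3, 2, 4]), (52, [0, 1, 0, 2, 3, 2, 4]), (35, [0, 1, 0])]]

theorem invT1 : invAll tree1.tr gens1 certs1 = true := by decide +kernel

end KC
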