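import Pool.Agent.Helper13.KC.WT

set_option autoImplicit false
set_option maxRecDepth 100000

namespace KC

open WT

/-- Tree of the transversal. -/
def tree3 : WT :=
  (B 2 (S 3 (B 4 (B 2 E (S 3 (B 2 E (S 1 (B 2 (B 4 E E) E) E)) E)) (S 1 (B 2 (B 4 E E) E) E)) E) (B 4 (B 2 E (S 3 (B 2 (B 4 E E) (S 1 (B 2 (B 4 E E) E) E)) E)) (S 1 (B 2 (B 4 E (S 3 (B 4 (B 2 E (S 1 (B 2 E E) (S 3 (B 2 E (S 1 (B 2 E E) E)) E))) (S 0 (S 1 (B 2 (B 4 (S 3 (B 2 (B 4 E (S 3 (B 4 E E) E)) (S 1 (B 2 (B 4 E (S 3 (B 4 E E) E)) E) (S 0 (S 1 (B 2 (B 4 E (S 3 (B 4 E E) E)) E) E) E))) E) (S 3 (B 4 E E) E)) E) E) E)) E)) E) (S 3 (B 2 E (B 4 (B 2 (S 1 (S 3 (B 2 (B 4 E (S 3 (B 4 E E) E)) E) E) E) E) (S 1 (B 2 (B 4 E E) E) E))) (S 0 (S 1 (B 2 (B 4 (S 3 (B 2 (B 4 E E) (S 1 (B 2 (B 4 E (S 3 (B 4 E E) E)) E) E)) E) (S 3 (B 4 (B 2 E E) (S 1 (B 2 (B 4 E (S 3 (B 4 E E) E)) E) E)) E)) (S 3 (B 2 (B 4 (S 3 (B 2 E (S 1 (B 2 (B 4 E (S 3 (B 4 E E) E)) E) E)) E) E) E) E)) E)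 (S 5 (S 4 (S 3 (B 2 (B 4 E (S 3 (B 4 E (S 1 (B 2 (B 4 (S 3 (B 2 E (S 0 (S 1 (B 2 (B 4 E (S 3 (B 4 E E) E)) E) E) E)) E) E) (S 5 (S 4 (S 3 (B 2 (B 4 E (S 3 (B 4 E E) E)) (S 0 (S 1 (B 2 (B 4 E (S 3 (B 4 E (S 1 (B 2 (B 4 (S 3 (B 2 (B 4 E (S 3 (B 4 E E) E)) E) E) (S 3 (B 4 E E) E)) (S 5 (S 4 (S 3 (B 2 (B 4 E (S 3 (B 4 E E) E)) E) E) E) E)) E)) E)) E) E) E)) E) E) E)) E)) E)) (S 1 (B 2 (B 4 E (S 3 (B 4 (S 1 (B 2 E (S 3 (B 2 (B 4 E E) E) E)) E) (S 0 (S 1 (B 2 (B 4 (S 3 (B 2 (B 4 E (S 3 (B 4 E E) E)) E) E) (S 3 (B 4 E E) E)) E) E) E)) E)) E) (S 0 (S 1 (B 2 (B 4 E (S 3 (B 4 E (S 1 (B 2 (B 4 (S 3 (B 2 (B 4 E (S 3 (B 4 E E) E)) E) E) (S 3 (B 4 E E) E)) E) E)) E)) E) E) E))) E) E) E))))))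

/-- Generators of the stabiliser. -/
def gens3 : List (List Nat) := [[0], [1], [3], [5], [4, 3, 5, 4]]

/-- Certificate. -/
def certs3 : List (List (Nat × List Nat)) :=
  [[(0, [0]), (1, [0]), (2, [0]), (3, [0]), (4, [0]), (48, []), (46, [2]), (51, [2]), (53, []), (9, [0]), (10, [0]), (11, [0]), (12, [0]), (44, [2]), (56, [2]), (42, []), (43, []), (49, []), (50, []), (52, []), (45, []), (47, []), (22, [2]), (33, []), (25, []), (24, []), (26, [2]), (28, []), (27, []), (29, [2]), (31, []), (30, []), (32, [2]), (23, []), (34, [0]), (35, [0]), (36, [0]), (57, [2]), (59, []), (58, []), (54, []), (55, []), (15, []), (16, []), (13, [2]), (20, []), (6, [2]), (21, []), (5, []), (17, []), (18, []), (7, [2]), (19, []), (8, []), (40, []), (41, []), (14, [2]), (37, [2]), (39, []), (38, []), (60, [0]), (61, [0]), (62, [0]), (99, [2]), (104, []), (102, []), (66, [2]), (68, []), (67, []), (72, [0]), (73, [0]), (74, [0]), (69, [0]), (70, [0]),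 (71, [0]), (75, [2]), (80, []), (78, []), (77, []), (79, [2]), (76, []), (83, [2]), (82, [2]), (81, [2]), (96, []), (97, []), (98, []), (100, []), (101, [2]), (103, []), (90, [2]), (95, []), (93, []), (92, []), (94, [2]), (91, []), (84, []), (85, []), (86, []), (63, [2]), (87, []), (88, [2]), (65, []), (89, []), (64, [])],
   [(0, [1]), (15, []), (17, []), (18, []), (20, []), (21, []), (6, [2]), (7, [2]), (19, []), (9, [1]), (16, []), (13, []), (14, []), (11, []), (12, []), (1, []), (10, []), (2, []), (3, []), (8, []), (4, []), (5, []), (51, [2]), (53, []), (48, [2]), (47, [2]), (46, [2]), (59, [2]), (58, [2]), (57, [2]), (32, [2]), (31, [2]), (30, [2]), (52, []), (40, []), (35, [1]), (41, []), (37, [2]), (39, []), (38, []), (34, []), (36, []), (42, [0]), (43, [0]), (44, [0]), (45, [0]), (26, [2]), (25, [2]), (24, [2]), (49, [0]), (50, [0]), (22, [2]), (33, []), (23, []), (54, [0]), (55, [0]), (56, [0]), (29, [2]), (28, [2]),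 (27, [2]), (84, []), (85, []), (86, []), (63, [2]), (87, []), (88, [2]), (67, []), (66, []), (68, [2]), (71, [2]), (70, [2]), (69, [2]), (78, [1, 2]), (79, [1, 2]), (77, [1]), (80, [2]), (76, [2]), (74, [1]), (72, [1, 2]), (73, [1, 2]), (75, [2]), (82, [2, 3, 4]), (81, [2, 3, 4]), (83, [3]), (60, []), (61, []), (62, []), (64, []), (65, [2]), (89, [2]), (99, [2]), (104, []), (102, []), (101, []), (103, [2]), (100, []), (96, [0]), (97, [0]), (98, [0]), (90, [2]), (95, []), (93, []), (92, []), (94, [2]), (91, [])],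
   [(1, []), (0, []), (35, []), (36, []), (12, []), (14, []), (13, []), (40, []), (41, []), (10, []), (9, []), (11, [2]), (4, []), (6, []), (5, []), (15, [1]), (16, [1]), (17, [1]), (19, []), (18, []), (21, []), (20, []), (22, [0]), (23, [0]), (24, [0]), (25, [0]), (26, [0]), (30, []), (31, []), (32, []), (27, []), (28, []), (29, []), (33, [0]), (34, [2]), (2, []), (3, []), (38, []), (37, []), (39, [2]), (7, []), (8, []), (42, [1]), (43, [1]), (46, []), (47, []), (44, []), (45, []), (56, [2]), (49, [1]), (52, []), (54, [2]), (50, []), (55, []), (51, [2]), (53, []), (48, [2]), (59, [2]), (58, [2]), (57, [2]), (60, [2]), (62, []), (61, []), (84, [1]), (85, [1]), (89, []), (94, [0]), (92, [0, 2]), (93, [0, 2]), (70, []), (69, []), (71, [2]), (73, []), (72, []), (74, [2]), (79, []), (77, [2]), (76, [2]), (80, [2]), (75, []), (78, [2]), (83, [2, 4]), (82, [3]), (81, [3, 4]), (63, [1]), (64, [1]), (87, [1]), (86, [1]), (88, [2]),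 (65, []), (90, [0, 1, 0]), (91, [0, 1, 0]), (67, [0, 2]), (68, [0, 2]), (66, [0]), (95, [0, 1, 0]), (99, [1, 2]), (104, [1]), (100, [1]), (96, [1, 2]), (98, [1]), (101, [2]), (103, []), (102, []), (97, [1])],
   [(0, [2]), (34, []), (3, []), (2, []), (4, [2]), (38, []), (37, []), (7, [1]), (8, [1]), (35, []), (36, []), (12, []), (11, []), (14, []), (13, []), (40, []), (41, []), (18, []), (17, []), (19, [1]), (20, [2]), (39, []), (22, [1]), (23, [1]), (27, []), (28, []), (29, []), (24, []), (25, []), (26, []), (30, [0]), (31, [0]), (32, [0]), (33, [1]), (1, []), (9, []), (10, []), (6, []), (5, []), (21, []), (15, []), (16, []), (54, []), (55, []), (56, []), (45, [2]), (57, []), (58, []), (59, []), (50, []), (49, []), (51, [1]), (52, [1]), (53, [1]), (42, []), (43, []), (44, []), (46, []), (47, []), (48, []), (61, []), (60, []), (62, [2]), (89, [2]), (65, [2]), (64, [2]), (66, [1]), (67, [1]), (68, [1]), (71, [2, 4]), (70, [3]),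 (69, [3, 4]), (74, [2, 4]), (73, [3]), (72, [3, 4]), (82, [3]), (83, [2, 4]), (78, [2, 3, 4]), (77, [2, 3, 4]), (79, [3]), (81, [4]), (80, [4]), (75, [3]), (76, [3, 4]), (85, []), (84, []), (86, [2]), (88, []), (87, []), (63, [2]), (94, []), (92, [2]), (91, [2]), (95, [2]), (90, []), (93, [2]), (97, []), (96, []), (98, [2]), (103, []), (101, [2]), (100, [2]), (104, [2]), (99, []), (102, [2])],
   [(9, []), (10, []), (2, [2]), (4, []), (3, []), (8, []), (7, []), (6, []), (5, []), (0, []), (1, []), (34, []), (36, []), (40, []), (41, []), (16, []), (15, []), (17, [2]), (20, []), (21, []), (18, []), (19, []), (26, []), (24, [2]), (23, [2]), (33, [2]), (22, []), (27, [1]), (28, [1]), (29, [1]), (30, [1]), (31, [1]), (32, [1]), (25, [2]), (11, []), (35, [2]), (12, []), (37, [1]), (38, [1]), (39, [1]), (13, []), (14, []), (43, []), (42, []), (54, [2]), (50, []), (51, []), (52, []), (53, []), (49, [2]), (45, []), (46, []), (47, []),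 (48, []), (44, [2]), (56, [2]), (55, [2]), (57, [1]), (58, [1]), (59, [1]), (60, [3]), (62, [4]), (61, [4]), (63, [3]), (87, [4]), (69, [2]), (75, [1, 2]), (80, [1]), (76, [1]), (65, [2]), (89, [2]), (88, [2]), (102, [0, 2]), (103, [0, 2]), (101, [0]), (66, [1, 2]), (68, [1]), (93, [0, 1]), (92, [0, 1]), (94, [0, 1, 2]), (67, [1]), (81, [1]), (82, [1]), (83, [1]), (84, [3]), (86, [4]), (85, [4]), (64, [4]), (71, [2]), (70, [2]), (90, [3]), (95, [4]), (78, [1, 0]), (77, [1, 0]), (79, [1, 0, 2]), (91, [4]), (96, [3]), (98, [4]), (97, [4]), (99, [3]), (104, [4]), (74, [0]), (72, [0, 2]), (73, [0, 2]), (100, [4])],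
   [(0, [3]), (1, [3]), (10, [4]), (36, [4]), (62, []), (64, [1]), (63, [1]), (7, [3]), (19, [4]), (35, [4]), (2, [4]), (60, []), (61, []), (84, []), (85, []), (15, [3]), (17, [4]), (16, [4]), (41, [4]), (8, [4]), (86, []), (87, [1]), (22, [3]), (33, [4]), (91, [1, 2]), (95, [1, 2]), (90, [1]), (92, [1]), (93, [1]), (94, [1]), (67, [0, 1, 2]), (68, [0, 1, 2]), (66, [0, 1]), (23, [4]), (34, [3]), (9, [4]), (3, [4]), (89, [1, 2]), (65, [1, 2]), (88, [1]), (40, [3]), (18, [4]), (42, [3]), (49, [4]), (96, [2]), (98, []), (99, [1]), (100, [1]), (104, [1]), (43, [4]), (55, [4]), (51, [3]), (53, [4]), (52, [4]), (54, [3]), (50, [4]), (97, [2]), (103, [1]), (101, [1, 2]), (102, [1, 2]), (11, []), (12, []), (4, []), (6, [1]), (5, [1]), (38, [1, 2]), (32, [1, 0]), (30, [1, 0, 2]), (31, [1, 0, 2]), (69, [1]), (70, [1]), (71, [1]), (72, [0, 1, 0]), (73, [0, 1, 0]), (74, [0, 1, 0]), (75, [0]), (76, [0]), (77, [0]), (78, [0]), (79, [0]),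 (80, [0]), (81, [0]), (82, [0]), (83, [0]), (13, []), (14, []), (20, []), (21, [1]), (39, [1]), (37, [1, 2]), (26, [1]), (24, [1, 2]), (27, [1]), (28, [1]), (29, [1]), (25, [1, 2]), (44, [2]), (56, [2]), (45, []), (46, [1]), (47, [1]), (58, [1, 2]), (59, [1, 2]), (57, [1]), (48, [1])]]

theorem invT3 : invAll tree3.tr gens3 certs3 = true := by decide +kernel

end KC
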