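import Pool.Agent.Helper13.KC.WT

set_option autoImplicit false
set_option maxRecDepth 100000

namespace KC

open WT

/-- Tree of the transversal. -/
def tree5 : WT :=
  (B 4 (S 3 (S 5 (B 4 E (S 2 (S 3 (B 4 (S 3 (S 5 (B 4 E E) E) E) E) E) E)) E) E) (S 3 (B 4 E E) (S 5 (B 4 E (S 3 (B 4 E E) E)) (S 2 (S 3 (B 4 E (S 5 (B 4 E E) E)) E) (S 1 (S 2 (S 3 (B 4 (S 3 (S 5 (B 4 E (S 2 (S 3 (B 4 E E) E) (S 1 (S 2 (S 3 (B 4 E E) E) E) (S 0 (S 1 (S 2 (S 3 (B 4 E E) E) E) E) E)))) E) E) (S 5 (B 4 E E) E)) E) E) (S 0 (S 1 (S 2 (S 3 (B 4 (S 3 (S 5 (B 4 E (S 2 (S 3 (B 4 E E) E) (S 1 (S 2 (S 3 (B 4 E E) E) E) E))) E) E) (S 5 (B 4 E E) E)) E) E) E) E))))))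

/-- Generators of the stabiliser. -/
def gens5 : List (List Nat) := [[0], [1], [2], [3], [5]]

/-- Certificate. -/
def certs5 : List (List (Nat × List Nat)) :=
  [[(0, [0]), (1, [0]), (2, [0]), (3, [0]), (4, [0]), (5, [0]), (6, [0]), (7, [0]), (8, [0]), (9, [0]), (16, []), (17, []), (18, []), (19, []), (14, [4]), (20, []), (10, []), (11, []), (12, []), (13, []), (15, [])],
   [(0, [1]), (1, [1]), (2, [1]), (11, [2, 4]), (12, [3]), (5, [1]), (6, [1]), (7, [1]), (10, []), (15, []), (8, []), (3, [2, 4]), (4, [3]), (13, [4]), (19, [4]), (9, []), (16, [0]), (17, [0]), (18, [0]), (14, [4]), (20, [0])],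
   [(0, [2]), (1, [2]), (3, [2]), (2, [2]), (4, [4]), (8, []), (6, [2]), (9, []), (5, []), (7, []), (10, [1]), (11, [1]), (13, []), (12, []), (14, [0]), (15, [1]), (16, [1]), (17, [1]), (19, []), (18, []), (20, [1])],
   [(0, [3]), (5, []), (2, [4]), (4, [3, 4]), (3, [3, 4]), (1, []), (7, []), (6, []), (8, [2]), (9, [2]), (10, [2]), (12, [2]), (11, [2]), (13, [1, 2, 1]), (14, [1, 2, 1]), (15, [2]), (16, [2]), (18, [2]), (17, [2]), (19, [1, 2, 1]), (20, [2])],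
   [(1, []), (0, []), (7, []), (9, [2]), (4, [2, 3, 2]), (5, [3]), (6, [4]), (2, []), (8, [3]), (3, [2]), (10, [3]), (15, [4]), (12, [2]), (13, [2]), (14, [2]), (11, [4]), (16, [3]), (20, [4]), (18, [2]), (19, [2]), (17, [4])],
   [(0, [4]), (6, []), (2, [3]), (3, [2, 3, 2]), (4, [2]), (7, []), (1, []), (5, []), (9, []), (8, []), (15, []), (11, [3]), (12, [2, 3, 2]), (13, [2, 3, 2]), (14, [2, 3, 2]), (10, []), (20, []), (17, [3]), (18, [2, 3, 2]), (19, [2, 3, 2]), (16, [])]]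

theorem invT5 : invAll tree5.tr gens5 certs5 = true := by decide +kernel

end KC
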