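import Pool.Agent.Helper13.KC.Ck5
import Pool.Agent.Helper13.KC.AT5
import Pool.Agent.Helper13.KC.Data3
import Pool.Agent.Helper13.KC.Data1
import Pool.Agent.Helper13.KC.Tr5
import Pool.Agent.Helper13.KC.Tr3
import Pool.Agent.Helper13.KC.Tr1

set_option autoImplicit false

/-!
Assembly of the checks of the tables of the square terms.
-/

namespace KC

open KF

/-- All the checks for five roots, for a table of entries. -/
theorem T5_good {QT : BT} {OFF : Nat}
    (hinv : ∀ t < 11, ∀ W ∈ ag5 t, ∃ AT : BT, ckA T5base AT W t = true ∧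
      ∀ f < T5base.nf t, ∃ lo k, rowsK QT AT (T5base.rb t) (T5base.nf t) lo k = true ∧
        lo ≤ f ∧ f < lo + k)
    (hsym : ∀ t < 11, ∀ f < T5base.nf t, ∀ g < T5base.nf t,
      (T5 QT OFF).qe t f g = (T5 QT OFF).qe t g f) : (T5 QT OFF).Good ag5 ac5 where
  c1 := ck5_1
  c2 := ck5_2
  c3 := ck5_3
  c4 := by
    intro t ht
    have ht : t < 11 := ht
    have : t = 0 ∨ t = 1 ∨ t = 2 ∨ t = 3 ∨ t = 4 ∨ t = 5 ∨ t = 6 ∨ t = 7 ∨ t = 8 ∨ t = 9 ∨
      t = 10 := by omega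
    rcases this with rfl | rfl | rfl | rfl | rfl | rfl | rfl | rfl | rfl | rfl | rfl
    · exact ck5_4_0
    · exact ck5_4_1
    · exact ck5_4_2
    · exact ck5_4_3
    · exact ck5_4_4
    · exact ck5_4_5
    · exact ck5_4_6
    · exact ck5_4_7
    · exact ck5_4_8
    · exact ck5_4_9
    · exact ck5_4_10
  c5 := ck5_5
  c6 := by
    intro t ht W hW f hf
    obtain ⟨AT, h1, h2⟩ := hinv t ht W hW
    obtain ⟨lo, k, h3, h4, h5⟩ := h2 f hf
    exact inv_of_rows (T5 QT OFF) AT W t lo k h1 h3 f h4 h5 hf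
  sym := hsym

/-- The same for three roots. -/
theorem T3_good {QT : BT} {OFF : Nat}
    (hinv : ∀ t < 2, ∀ j < 2, rowsK QT (AT3 t j) (T3base.rb t) (T3base.nf t) 0
      (T3base.nf t) = true)
    (hsym : ∀ t < 2, ∀ f < T3base.nf t, ∀ g < T3base.nf t,
      (T3 QT OFF).qe t f g = (T3 QT OFF).qe t g f) : (T3 QT OFF).Good3 AT3 where
  c4 := dk4_3
  c5 := dk5_3
  c6 := hinv
  sym := hsym

/-- The same for one root. -/
theorem T1_good {QT : BT} {OFF : Nat}
    (hsym : ∀ f < T1base.nf 0, ∀ g < T1base.nf 0,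
      (T1 QT OFF).qe 0 f g = (T1 QT OFF).qe 0 g f) : (T1 QT OFF).Good1 where
  c4 := ek4_1
  sym := hsym

end KC
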