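import Pool.Agent.Helper13.KC.S3b

set_option autoImplicit false

/-!
Terms with one root.
-/

namespace KC

open KF

/-- Code of the flag on the vertices 0 | 1,2,3. -/
def cC (m : Nat) : Nat := m % 16

/-- Code of the flag on the vertices 0 | 4,5,6. -/
def cD (m : Nat) : Nat :=
  Nat.lor (Nat.land (Nat.shiftRight m 16) 1) (Nat.lor (Nat.land (Nat.shiftRight m 25) 2)
    (Nat.lor (Nat.land (Nat.shiftRight m 28) 4) (Nat.land (Nat.shiftRight m 31) 8)))

/-- Bit positions of `cD`. -/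
def bD (s : Nat) : Nat := if s = 0 then 16 else if s = 1 then 26 else if s = 2 then 30 else 34

theorem cC_bit (m s : Nat) (hs : s < 4) : (cC m).testBit s = m.testBit s := by
  unfold cC
  rw [show (16 : Nat) = 2 ^ 4 by norm_num, Nat.testBit_mod_two_pow]
  simp [hs]

theorem cC_lt (m : Nat) : cC m < 2 ^ 4 := Nat.mod_lt _ (by norm_num)

theorem cD_bit (m s : Nat) (hs : s < 4) : (cD m).testBit s = m.testBit (bD s) := by
  have : s = 0 ∨ s = 1 ∨ s = 2 ∨ s = 3 := by omega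
  unfold cD
  rw [lor_bit, lor_bit, lor_bit, land_bit, land_bit, land_bit, land_bit]
  change (Nat.testBit (m >>> 16) s && _ || (Nat.testBit (m >>> 25) s && _ ||
    (Nat.testBit (m >>> 28) s && _ || Nat.testBit (m >>> 31) s && _))) = _
  rw [Nat.testBit_shiftRight, Nat.testBit_shiftRight, Nat.testBit_shiftRight,
    Nat.testBit_shiftRight]
  rcases this with rfl | rfl | rfl | rfl <;> simp [bD, Nat.testBit]

theorem cD_lt (m : Nat) : cD m < 2 ^ 4 := by
  unfold cD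
  exact Nat.or_lt_two_pow (lt_of_le_of_lt Nat.and_le_right (by norm_num))
    (Nat.or_lt_two_pow (lt_of_le_of_lt Nat.and_le_right (by norm_num))
      (Nat.or_lt_two_pow (lt_of_le_of_lt Nat.and_le_right (by norm_num))
        (lt_of_le_of_lt Nat.and_le_right (by norm_num))))

theorem eq4 {a b : Nat} (ha : a < 2 ^ 4) (hb : b < 2 ^ 4)
    (h : ∀ t < 4, a.testBit t = b.testBit t) : a = b := by
  refine Nat.eq_of_testBit_eq fun t => ?_
  by_cases ht : t < 4
  · exact h t ht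
  · rw [Nat.testBit_eq_false_of_lt (lt_of_lt_of_le ha
      (Nat.pow_le_pow_right (by norm_num) (by omega))),
      Nat.testBit_eq_false_of_lt (lt_of_lt_of_le hb
      (Nat.pow_le_pow_right (by norm_num) (by omega)))]

/-- Action of the swaps 1, 2 on the codes. -/
def a1 (i c : Nat) : Nat := cC (tau i c)

theorem ba_C : ∀ s < 4, ba 1 s < 4 ∧ ba 2 s < 4 ∧ ba 4 s = s ∧ ba 5 s = s := by
  decide +kernel

theorem ba_D : ∀ s < 4, ba 1 (bD s) = bD s ∧ ba 2 (bD s) = bD s ∧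
    ba 4 (bD s) = bD (ba 1 s) ∧ ba 5 (bD s) = bD (ba 2 s) ∧ bD s < 35 := by decide +kernel

theorem cC_tau (i m : Nat) (hi : i = 1 ∨ i = 2) : cC (tau i m) = a1 i (cC m) := by
  refine eq4 (cC_lt _) (cC_lt _) fun s hs => ?_
  have hi6 : i < 6 := by omega
  have hb : ba i s < 4 := by
    obtain ⟨h0, h1, -⟩ := ba_C s hs
    rcases hi with rfl | rfl <;> assumption
  rw [cC_bit _ _ hs, a1, cC_bit _ _ hs, tau_bit _ _ _ hi6 (by omega),
    tau_bit _ _ _ hi6 (by omega), cC_bit _ _ hb]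

theorem cC_tau' (i m : Nat) (hi : i = 4 ∨ i = 5) : cC (tau i m) = cC m := by
  refine eq4 (cC_lt _) (cC_lt _) fun s hs => ?_
  have hb : ba i s = s := by
    obtain ⟨-, -, h0, h1⟩ := ba_C s hs
    rcases hi with rfl | rfl <;> assumption
  rw [cC_bit _ _ hs, cC_bit _ _ hs, tau_bit _ _ _ (by omega) (by omega), hb]

theorem cD_tau (i m : Nat) (hi : i = 1 ∨ i = 2) : cD (tau i m) = cD m := by
  refine eq4 (cD_lt _) (cD_lt _) fun s hs => ?_
  have hb : ba i (bD s) = bD s := by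
    obtain ⟨h0, h1, -⟩ := ba_D s hs
    rcases hi with rfl | rfl <;> assumption
  rw [cD_bit _ _ hs, cD_bit _ _ hs, tau_bit _ _ _ (by omega) (ba_D s hs).2.2.2.2, hb]

theorem cD_tau4 (m : Nat) : cD (tau 4 m) = a1 1 (cD m) := by
  refine eq4 (cD_lt _) (cC_lt _) fun s hs => ?_
  rw [cD_bit _ _ hs, a1, cC_bit _ _ hs, tau_bit _ _ _ (by omega) (ba_D s hs).2.2.2.2,
    (ba_D s hs).2.2.1, tau_bit _ _ _ (by omega) (by omega), cD_bit _ _ (ba_C s hs).1]

theorem cD_tau5 (m : Nat) : cD (tau 5 m) = a1 2 (cD m) := by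
  refine eq4 (cD_lt _) (cC_lt _) fun s hs => ?_
  rw [cD_bit _ _ hs, a1, cC_bit _ _ hs, tau_bit _ _ _ (by omega) (ba_D s hs).2.2.2.2,
    (ba_D s hs).2.2.2.1, tau_bit _ _ _ (by omega) (by omega), cD_bit _ _ (ba_C s hs).2.1]

/-- The word of the exchange (1 4)(2 5)(3 6). -/
def wB : List Nat := [3, 2, 1, 4, 3, 2, 5, 4, 3]

theorem blk1_C : ∀ s < 4, ixs (vw wB (f7 (KC.tri s).1)).1
    (vw wB (f7 (KC.tri s).2.1)).1 (vw wB (f7 (KC.tri s).2.2)).1 = bD s := by decide +kernel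

theorem blk1_D : ∀ s < 4, ixs (vw wB (f7 (KC.tri (bD s)).1)).1
    (vw wB (f7 (KC.tri (bD s)).2.1)).1 (vw wB (f7 (KC.tri (bD s)).2.2)).1 = s := by
  decide +kernel

theorem cC_blk {m : Nat} (hm : m < 2 ^ 35) : cC (awl wB m) = cD m := by
  refine eq4 (cC_lt _) (cD_lt _) fun s hs => ?_
  rw [cC_bit _ _ hs, cD_bit _ _ hs, awl_bit rfl hm (by omega), bt, blk1_C s hs]

theorem cD_blk {m : Nat} (hm : m < 2 ^ 35) : cD (awl wB m) = cC m := by
  refine eq4 (cD_lt _) (cC_lt _) fun s hs => ?_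
  rw [cD_bit _ _ hs, cC_bit _ _ hs, awl_bit rfl hm (ba_D s hs).2.2.2.2, bt, blk1_D s hs]

namespace Tab

variable (T : Tab)

/-- Coefficient. -/
noncomputable def Q1 (a b : Nat) : ℤ := T.qi 0 (T.fi 0 a) (T.fi 0 b)

/-- The integrand. -/
noncomputable def G1 (m : Nat) : ℤ := T.Q1 (cC m) (cD m)

/-- Kernel version (with offset). -/
noncomputable def g1K (m : Nat) : Nat := T.qe 0 (T.fi 0 (Nat.land m 15)) (T.fi 0 (cD m))

/-- All the checks. -/
structure Good1 : Prop where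
  c4 : ∀ c < 16, T.fi 0 c < T.nf 0 ∧ T.fi 0 (a1 1 c) = T.fi 0 c ∧ T.fi 0 (a1 2 c) = T.fi 0 c
  sym : ∀ f < T.nf 0, ∀ g < T.nf 0, T.qe 0 f g = T.qe 0 g f

variable {T}

theorem G1_inv (h : T.Good1) :
    ∀ W ∈ ([[1], [2], [4], [5], wB] : List (List Nat)), ∀ m, Adm m →
      T.G1 (awl W m) = T.G1 m := by
  intro W hW m hm
  simp only [List.mem_cons, List.not_mem_nil, or_false] at hW
  have h1 := h.c4 _ (cC_lt m)
  have h2 := h.c4 _ (cD_lt m)
  rcases hW with rfl | rfl | rfl | rfl | rfl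
  · change T.G1 (tau 1 m) = _
    rw [G1, G1, cC_tau 1 m (by omega), cD_tau 1 m (by omega), Q1, Q1, h1.2.1]
  · change T.G1 (tau 2 m) = _
    rw [G1, G1, cC_tau 2 m (by omega), cD_tau 2 m (by omega), Q1, Q1, h1.2.2]
  · change T.G1 (tau 4 m) = _
    rw [G1, G1, cC_tau' 4 m (by omega), cD_tau4 m, Q1, Q1, h2.2.1]
  · change T.G1 (tau 5 m) = _
    rw [G1, G1, cC_tau' 5 m (by omega), cD_tau5 m, Q1, Q1, h2.2.2]
  · rw [G1, G1, cC_blk hm.lt, cD_blk hm.lt, Q1, Q1, qi, qi, h.sym _ h2.1 _ h1.1]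

theorem g1K_eq (m : Nat) : ((T.g1K m : Nat) : ℤ) = T.G1 m + T.OFF := by
  have e1 : Nat.land m 15 = cC m := by
    have := land_mod m 4
    rw [show (2 : Nat) ^ 4 - 1 = 15 by norm_num] at this
    rw [this, cC]; norm_num
  rw [g1K, e1, G1, Q1, qi]
  ring

theorem psd1 (h : T.Good1)
    (hp : ∀ x : Nat → ℝ, 0 ≤ ∑ f ∈ Finset.range (T.nf 0), ∑ g ∈ Finset.range (T.nf 0),
      ((T.qi 0 f g : ℤ) : ℝ) * x f * x g) (f : Nat → ℝ) :
    0 ≤ ∑ a ∈ Finset.range 16, ∑ b ∈ Finset.range 16,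
      ((T.Q1 a b : ℤ) : ℝ) * f a * f b := by
  classical
  set I : Nat → Nat := fun a => T.fi 0 a with hI
  have hIlt : ∀ a ∈ Finset.range 16, I a ∈ Finset.range (T.nf 0) := fun a ha =>
    Finset.mem_range.2 (h.c4 a (Finset.mem_range.1 ha)).1
  set X : Nat → ℝ := fun i => ∑ a ∈ (Finset.range 16).filter (fun a => I a = i), f a with hX
  have key : ∑ a ∈ Finset.range 16, ∑ b ∈ Finset.range 16,
      ((T.Q1 a b : ℤ) : ℝ) * f a * f b =
      ∑ i ∈ Finset.range (T.nf 0), ∑ j ∈ Finset.range (T.nf 0),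
        ((T.qi 0 i j : ℤ) : ℝ) * X i * X j := by
    rw [← Finset.sum_fiberwise_of_maps_to hIlt]
    refine Finset.sum_congr rfl fun i _ => ?_
    have : ∀ a ∈ (Finset.range 16).filter (fun a => I a = i),
        ∑ b ∈ Finset.range 16, ((T.Q1 a b : ℤ) : ℝ) * f a * f b =
        f a * ∑ j ∈ Finset.range (T.nf 0), ((T.qi 0 i j : ℤ) : ℝ) * X j := by
      intro a ha
      obtain ⟨-, ha⟩ := Finset.mem_filter.1 ha
      rw [← Finset.sum_fiberwise_of_maps_to hIlt, Finset.mul_sum]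
      refine Finset.sum_congr rfl fun j _ => ?_
      rw [hX, Finset.mul_sum, Finset.mul_sum]
      refine Finset.sum_congr rfl fun b hb => ?_
      obtain ⟨-, hb⟩ := Finset.mem_filter.1 hb
      have : T.Q1 a b = T.qi 0 i j := by
        rw [Q1]
        simp only [hI] at ha hb
        rw [ha, hb]
      rw [this]; ring
    rw [Finset.sum_congr rfl this, ← Finset.sum_mul]
    rw [Finset.mul_sum]
    refine Finset.sum_congr rfl fun j _ => ?_
    rw [hX]; ring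
  rw [key]
  exact hp X

end Tab

end KC
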