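import Pool.Agent.Helper13.KC.S3

set_option autoImplicit false

/-!
Table form of the terms with three roots, and its invariance.
-/

namespace KC

open KF

namespace Tab

variable (T : Tab)

/-- Coefficient for labelled roots. -/
noncomputable def Q3 (r a b : Nat) : ℤ := T.qi (r % 2) (T.fi (r % 2) a) (T.fi (r % 2) b)

/-- The integrand. -/
noncomputable def G3 (m : Nat) : ℤ := T.Q3 (m % 2) (cA m) (cB m)

/-- Kernel version (with offset). -/
noncomputable def g3K (m : Nat) : Nat :=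
  fc (Nat.land m 1) fun t =>
  T.qe t (T.fi t (Nat.land (Nat.shiftRight m 1) 511)) (T.fi t (cB m))

/-- Flag indices are correct and invariant under the swap of the two free vertices. -/
noncomputable def dk4 (t : Nat) : Bool :=
  (List.range 512).all fun c => Nat.blt (T.fi t c) (T.nf t) &&
    (vio0 (Nat.add t (Nat.mul 2 c)) || Nat.beq (T.fi t (a3 3 c)) (T.fi t c))

/-- The tables `AT` of the two root swaps. -/
noncomputable def dk5 (AT : Nat → Nat → BT) (t j : Nat) : Bool :=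
  (List.range 512).all fun c =>
    (vio0 (Nat.add t (Nat.mul 2 c)) ||
      Nat.beq (T.fi t (a3 j c)) (pk (AT t j) 16 65535 (T.fi t c)))

/-- All the checks. -/
structure Good3 (AT : Nat → Nat → BT) : Prop where
  c4 : ∀ t < 2, T.dk4 t = true
  c5 : ∀ t < 2, ∀ j < 2, T.dk5 AT t j = true
  c6 : ∀ t < 2, ∀ j < 2, rowsK T.QT (AT t j) (T.rb t) (T.nf t) 0 (T.nf t) = true
  sym : ∀ t < 2, ∀ f < T.nf t, ∀ g < T.nf t, T.qe t f g = T.qe t g f

variable {T} {AT : Nat → Nat → BT}

theorem Good3.fi_lt (h : T.Good3 AT) {t l : Nat} (ht : t < 2) (hl : l < 2 ^ 9) :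
    T.fi t l < T.nf t := by
  have := h.c4 t ht
  simp only [dk4, List.all_eq_true, List.mem_range, Bool.and_eq_true] at this
  exact (Nat.blt_eq ▸ (this l hl).1)

theorem Good3.swap (h : T.Good3 AT) {t l : Nat} (ht : t < 2) (hl : l < 2 ^ 9)
    (hv : vio0 (t + 2 * l) = false) : T.fi t (a3 3 l) = T.fi t l := by
  have := h.c4 t ht
  simp only [dk4, List.all_eq_true, List.mem_range, Bool.and_eq_true] at this
  have h2 := (this l hl).2
  rw [show Nat.add t (Nat.mul 2 l) = t + 2 * l from rfl, hv, Bool.false_or] at h2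
  exact Nat.eq_of_beq_eq_true h2

theorem Good3.act (h : T.Good3 AT) {t j l : Nat} (ht : t < 2) (hj : j < 2) (hl : l < 2 ^ 9)
    (hv : vio0 (t + 2 * l) = false) :
    T.fi t (a3 j l) = pk (AT t j) 16 65535 (T.fi t l) := by
  have := h.c5 t ht j hj
  simp only [dk5, List.all_eq_true, List.mem_range] at this
  have h2 := this l hl
  rw [show Nat.add t (Nat.mul 2 l) = t + 2 * l from rfl, hv, Bool.false_or] at h2
  exact Nat.eq_of_beq_eq_true h2

theorem Good3.inv (h : T.Good3 AT) {t j f g : Nat} (ht : t < 2) (hj : j < 2)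
    (hf : f < T.nf t) (hg : g < T.nf t) :
    T.qe t (pk (AT t j) 16 65535 f) (pk (AT t j) 16 65535 g) = T.qe t f g :=
  rowsK_spec T.QT (AT t j) (T.rb t) (T.nf t) 0 (T.nf t) (h.c6 t ht j hj) f (by omega)
    (by omega) g hg

theorem G3_tau (h : T.Good3 AT) {m : Nat} (hm : Adm m) {j : Nat} (hj : j < 2) :
    T.G3 (tau j m) = T.G3 m := by
  have hj' : j = 0 ∨ j = 1 := by omega
  have ht : m % 2 % 2 < 2 := by omega
  have e : m % 2 % 2 = m % 2 := by omega
  rw [G3, G3, mod2_tau j m (by omega), cA_tau j m (by omega), cB_tau j m hj', Q3, Q3,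
    h.act ht hj (cA_lt m) (by rw [e]; exact vio0_cA hm),
    h.act ht hj (cB_lt m) (by rw [e]; exact vio0_cB hm), qi, qi,
    h.inv ht hj (h.fi_lt ht (cA_lt m)) (h.fi_lt ht (cB_lt m))]

theorem G3_tau3 (h : T.Good3 AT) {m : Nat} (hm : Adm m) : T.G3 (tau 3 m) = T.G3 m := by
  have ht : m % 2 % 2 < 2 := by omega
  have e : m % 2 % 2 = m % 2 := by omega
  rw [G3, G3, mod2_tau 3 m (by omega), cA_tau 3 m (by omega), cB_tau3, Q3, Q3,
    h.swap ht (cA_lt m) (by rw [e]; exact vio0_cA hm)]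

theorem G3_tau5 (h : T.Good3 AT) {m : Nat} (hm : Adm m) : T.G3 (tau 5 m) = T.G3 m := by
  have ht : m % 2 % 2 < 2 := by omega
  have e : m % 2 % 2 = m % 2 := by omega
  rw [G3, G3, mod2_tau 5 m (by omega), cA_tau5, cB_tau5, Q3, Q3,
    h.swap ht (cB_lt m) (by rw [e]; exact vio0_cB hm)]

theorem G3_blk (h : T.Good3 AT) {m : Nat} (hm : Adm m) :
    T.G3 (awl [4, 3, 5, 4] m) = T.G3 m := by
  have ht : m % 2 % 2 < 2 := by omega
  rw [G3, G3, mod2_blk hm.lt, cA_blk hm.lt, cB_blk hm.lt, Q3, Q3, qi, qi,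
    h.sym _ ht _ (h.fi_lt ht (cB_lt m)) _ (h.fi_lt ht (cA_lt m))]

theorem G3_inv (h : T.Good3 AT) :
    ∀ W ∈ ([[0], [1], [3], [5], [4, 3, 5, 4]] : List (List Nat)), ∀ m, Adm m →
      T.G3 (awl W m) = T.G3 m := by
  intro W hW m hm
  simp only [List.mem_cons, List.not_mem_nil, or_false] at hW
  rcases hW with rfl | rfl | rfl | rfl | rfl
  · exact G3_tau (j := 0) h hm (by norm_num)
  · exact G3_tau (j := 1) h hm (by norm_num)
  · exact G3_tau3 h hm
  · exact G3_tau5 h hm
  · exact G3_blk h hm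

theorem g3K_eq (m : Nat) : ((T.g3K m : Nat) : ℤ) = T.G3 m + T.OFF := by
  have e1 : Nat.land m 1 = m % 2 := land_mod m 1
  have e2 : Nat.land (Nat.shiftRight m 1) 511 = cA m := by
    have := land_mod (Nat.shiftRight m 1) 9
    rw [show (2 : Nat) ^ 9 - 1 = 511 by norm_num] at this
    rw [this, shift_div, cA]
    norm_num
  rw [g3K, fc_eq, e1, e2, G3, Q3, qi]
  have e : m % 2 % 2 = m % 2 := by omega
  rw [e]
  ring

theorem psd3 (h : T.Good3 AT)
    (hp : ∀ t < 2, ∀ x : Nat → ℝ, 0 ≤ ∑ f ∈ Finset.range (T.nf t), ∑ g ∈ Finset.range (T.nf t),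
      ((T.qi t f g : ℤ) : ℝ) * x f * x g) (r : Nat) (f : Nat → ℝ) :
    0 ≤ ∑ a ∈ Finset.range 1024, ∑ b ∈ Finset.range 1024,
      ((T.Q3 r (a / 2) (b / 2) : ℤ) : ℝ) * f a * f b := by
  classical
  set t := r % 2 with ht
  have htN : t < 2 := by omega
  set I : Nat → Nat := fun a => T.fi t (a / 2) with hI
  have hIlt : ∀ a ∈ Finset.range 1024, I a ∈ Finset.range (T.nf t) := fun a ha =>
    Finset.mem_range.2 (h.fi_lt htN (by have := Finset.mem_range.1 ha; omega))
  set X : Nat → ℝ := fun i => ∑ a ∈ (Finset.range 1024).filter (fun a => I a = i), f a with hX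
  have key : ∑ a ∈ Finset.range 1024, ∑ b ∈ Finset.range 1024,
      ((T.Q3 r (a / 2) (b / 2) : ℤ) : ℝ) * f a * f b =
      ∑ i ∈ Finset.range (T.nf t), ∑ j ∈ Finset.range (T.nf t),
        ((T.qi t i j : ℤ) : ℝ) * X i * X j := by
    rw [← Finset.sum_fiberwise_of_maps_to hIlt]
    refine Finset.sum_congr rfl fun i _ => ?_
    have : ∀ a ∈ (Finset.range 1024).filter (fun a => I a = i),
        ∑ b ∈ Finset.range 1024, ((T.Q3 r (a / 2) (b / 2) : ℤ) : ℝ) * f a * f b =
        f a * ∑ j ∈ Finset.range (T.nf t), ((T.qi t i j : ℤ) : ℝ) * X j := by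
      intro a ha
      obtain ⟨-, ha⟩ := Finset.mem_filter.1 ha
      rw [← Finset.sum_fiberwise_of_maps_to hIlt, Finset.mul_sum]
      refine Finset.sum_congr rfl fun j _ => ?_
      rw [hX, Finset.mul_sum, Finset.mul_sum]
      refine Finset.sum_congr rfl fun b hb => ?_
      obtain ⟨-, hb⟩ := Finset.mem_filter.1 hb
      have : T.Q3 r (a / 2) (b / 2) = T.qi t i j := by
        rw [Q3, ← ht]
        simp only [hI] at ha hb
        rw [ha, hb]
      rw [this]; ring
    rw [Finset.sum_congr rfl this, ← Finset.sum_mul]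
    rw [Finset.mul_sum]
    refine Finset.sum_congr rfl fun j _ => ?_
    rw [hX]; ring
  rw [key]
  exact hp t htN X

end Tab

end KC
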