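import Pool.Agent.Helper13.KC.S5b

set_option autoImplicit false

/-!
Kernel versions of the invariance checks of the quadratic forms.
-/

namespace KC

/-- Field `g` of a packed row. -/
def fld (R g : Nat) : Nat :=
  Nat.land (Nat.shiftRight R (Nat.mul 96 g)) 79228162514264337593543950335

/-- Rows `Ra`, `Rf` agree after permuting the columns by the table `AT`. -/
noncomputable def rowEq (AT : BT) (Ra Rf n : Nat) : Bool :=
  Nat.rec (motive := fun _ => Bool) true
    (fun g ih => Bool.rec (motive := fun _ => Bool) false ih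
      (Nat.beq (fld Ra (pk AT 16 65535 g)) (fld Rf g))) n

theorem rowEq_spec (AT : BT) (Ra Rf : Nat) : ∀ n, rowEq AT Ra Rf n = true →
    ∀ g < n, fld Ra (pk AT 16 65535 g) = fld Rf g
  | 0, _, g, hg => by omega
  | n + 1, h, g, hg => by
    change Bool.rec (motive := fun _ => Bool) false (rowEq AT Ra Rf n)
      (Nat.beq (fld Ra (pk AT 16 65535 n)) (fld Rf n)) = true at h
    cases hb : Nat.beq (fld Ra (pk AT 16 65535 n)) (fld Rf n)
    · rw [hb] at h; exact absurd h (by simp)
    · rw [hb] at h
      rcases Nat.lt_succ_iff_lt_or_eq.1 hg with h1 | h1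
      · exact rowEq_spec AT Ra Rf n h g h1
      · rw [h1]; exact Nat.eq_of_beq_eq_true hb

/-- Rows `lo, ..., lo + k - 1`. -/
noncomputable def rowsK (QT AT : BT) (rb n lo k : Nat) : Bool :=
  Nat.rec (motive := fun _ => Bool) true
    (fun j ih => Bool.rec (motive := fun _ => Bool) false ih
      (fc (Nat.add lo j) fun f =>
       fc (QT.get (Nat.add rb (pk AT 16 65535 f))) fun Ra =>
       fc (QT.get (Nat.add rb f)) fun Rf => rowEq AT Ra Rf n)) k

theorem rowsK_spec (QT AT : BT) (rb n lo : Nat) : ∀ k, rowsK QT AT rb n lo k = true →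
    ∀ f, lo ≤ f → f < lo + k → ∀ g < n,
      fld (QT.get (rb + pk AT 16 65535 f)) (pk AT 16 65535 g) = fld (QT.get (rb + f)) g
  | 0, _, f, h1, h2, _, _ => by omega
  | k + 1, h, f, h1, h2, g, hg => by
    change Bool.rec (motive := fun _ => Bool) false (rowsK QT AT rb n lo k)
      (fc (Nat.add lo k) fun f =>
       fc (QT.get (Nat.add rb (pk AT 16 65535 f))) fun Ra =>
       fc (QT.get (Nat.add rb f)) fun Rf => rowEq AT Ra Rf n) = true at h
    rw [fc_eq, fc_eq, fc_eq] at h
    cases hb : rowEq AT (QT.get (Nat.add rb (pk AT 16 65535 (Nat.add lo k))))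
      (QT.get (Nat.add rb (Nat.add lo k))) n
    · rw [hb] at h; exact absurd h (by simp)
    · rw [hb] at h
      by_cases hf : f = lo + k
      · subst hf
        exact rowEq_spec AT _ _ n hb g hg
      · exact rowsK_spec QT AT rb n lo k h f h1 (by omega) g hg

/-- The table `AT` is the permutation of the flags induced by the word `W`. -/
noncomputable def ckA (T : Tab) (AT : BT) (W : List Nat) (t : Nat) : Bool :=
  (List.range (T.nf t)).all fun g =>
    Nat.beq (pk AT 16 65535 g) (T.fi t (al5 W (T.fl t g)))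

theorem inv_of_rows (T : Tab) (AT : BT) (W : List Nat) (t lo k : Nat)
    (hA : ckA T AT W t = true) (hr : rowsK T.QT AT (T.rb t) (T.nf t) lo k = true) :
    ∀ f, lo ≤ f → f < lo + k → f < T.nf t → T.InvRow W t f := by
  intro f h1 h2 h3 g hg
  simp only [ckA, List.all_eq_true, List.mem_range] at hA
  have a1 := Nat.eq_of_beq_eq_true (hA f h3)
  have a2 := Nat.eq_of_beq_eq_true (hA g hg)
  have := rowsK_spec T.QT AT (T.rb t) (T.nf t) lo k hr f h1 h2 g hg
  rw [a1, a2] at this
  exact this

end KC
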