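import Pool.Agent.Helper13.KC.Eval

set_option autoImplicit false

/-!
Terms with five roots: canonical labelling of the roots by a table, invariance by finite checks.
-/

namespace KC

open KF

/-- The root mask. -/
def rt (m : Nat) : Nat := m % 2 ^ 10
/-- The link mask of vertex 5 on the pairs of the roots. -/
def lk5 (m : Nat) : Nat := m / 2 ^ 10 % 2 ^ 10
/-- The link mask of vertex 6 on the pairs of the roots. -/
def lk6 (m : Nat) : Nat := m / 2 ^ 20 % 2 ^ 10
/-- Action of a swap on link masks. -/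
def tl (i l : Nat) : Nat := lk5 (tau i (l * 2 ^ 10))
/-- Action of a word on link masks. -/
def al5 : List Nat → Nat → Nat
  | [], l => l
  | i :: w, l => al5 w (tl i l)

theorem rt_bit (m t : Nat) (ht : t < 10) : (rt m).testBit t = m.testBit t := by
  unfold rt
  rw [Nat.testBit_mod_two_pow]
  simp [ht]

theorem lk5_bit (m t : Nat) (ht : t < 10) : (lk5 m).testBit t = m.testBit (10 + t) := by
  unfold lk5
  rw [Nat.testBit_mod_two_pow, ← Nat.shiftRight_eq_div_pow, Nat.testBit_shiftRight]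
  simp [ht]

theorem lk6_bit (m t : Nat) (ht : t < 10) : (lk6 m).testBit t = m.testBit (20 + t) := by
  unfold lk6
  rw [Nat.testBit_mod_two_pow, ← Nat.shiftRight_eq_div_pow, Nat.testBit_shiftRight]
  simp [ht]

theorem eq10 {a b : Nat} (ha : a < 2 ^ 10) (hb : b < 2 ^ 10)
    (h : ∀ t < 10, a.testBit t = b.testBit t) : a = b := by
  refine Nat.eq_of_testBit_eq fun t => ?_
  by_cases ht : t < 10
  · exact h t ht
  · rw [Nat.testBit_eq_false_of_lt (lt_of_lt_of_le ha
      (Nat.pow_le_pow_right (by norm_num) (by omega))),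
      Nat.testBit_eq_false_of_lt (lt_of_lt_of_le hb
      (Nat.pow_le_pow_right (by norm_num) (by omega)))]

theorem rt_lt (m : Nat) : rt m < 2 ^ 10 := Nat.mod_lt _ (by norm_num)
theorem lk5_lt (m : Nat) : lk5 m < 2 ^ 10 := Nat.mod_lt _ (by norm_num)
theorem lk6_lt (m : Nat) : lk6 m < 2 ^ 10 := Nat.mod_lt _ (by norm_num)

theorem ba_link : ∀ i < 4, ∀ t < 10, ba i t < 10 ∧ 10 ≤ ba i (10 + t) ∧ ba i (10 + t) < 20 ∧
    ba i (20 + t) = 10 + ba i (10 + t) := by decide +kernel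

theorem ba_5 : ∀ t < 10, ba 5 t = t ∧ ba 5 (10 + t) = 20 + t ∧ ba 5 (20 + t) = 10 + t := by
  decide +kernel

theorem rt_tau (i m : Nat) (hi : i < 4) : rt (tau i m) = rt (tau i (rt m)) := by
  refine eq10 (rt_lt _) (rt_lt _) fun t ht => ?_
  obtain ⟨h1, -⟩ := ba_link i hi t ht
  rw [rt_bit _ _ ht, rt_bit _ _ ht, tau_bit _ _ _ (by omega) (by omega),
    tau_bit _ _ _ (by omega) (by omega), rt_bit _ _ h1]

theorem lk5_tau (i m : Nat) (hi : i < 4) : lk5 (tau i m) = tl i (lk5 m) := by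
  refine eq10 (lk5_lt _) (lk5_lt _) fun t ht => ?_
  obtain ⟨-, h1, h2, -⟩ := ba_link i hi t ht
  rw [lk5_bit _ _ ht, tl, lk5_bit _ _ ht, tau_bit _ _ _ (by omega) (by omega),
    tau_bit _ _ _ (by omega) (by omega)]
  obtain ⟨u, hu⟩ : ∃ u, ba i (10 + t) = 10 + u := ⟨ba i (10 + t) - 10, by omega⟩
  rw [hu, ← lk5_bit _ _ (by omega : u < 10), Nat.testBit_mul_two_pow]
  simp

theorem lk6_tau (i m : Nat) (hi : i < 4) : lk6 (tau i m) = tl i (lk6 m) := by
  refine eq10 (lk6_lt _) (lk5_lt _) fun t ht => ?_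
  obtain ⟨-, h1, h2, h3⟩ := ba_link i hi t ht
  rw [lk6_bit _ _ ht, tl, lk5_bit _ _ ht, tau_bit _ _ _ (by omega) (by omega),
    tau_bit _ _ _ (by omega) (by omega), h3]
  obtain ⟨u, hu⟩ : ∃ u, ba i (10 + t) = 10 + u := ⟨ba i (10 + t) - 10, by omega⟩
  rw [hu, show 10 + (10 + u) = 20 + u by omega, ← lk6_bit _ _ (by omega : u < 10),
    Nat.testBit_mul_two_pow]
  simp

theorem rt_tau5 (m : Nat) : rt (tau 5 m) = rt m := by
  refine eq10 (rt_lt _) (rt_lt _) fun t ht => ?_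
  rw [rt_bit _ _ ht, rt_bit _ _ ht, tau_bit _ _ _ (by omega) (by omega), (ba_5 t ht).1]

theorem lk5_tau5 (m : Nat) : lk5 (tau 5 m) = lk6 m := by
  refine eq10 (lk5_lt _) (lk6_lt _) fun t ht => ?_
  rw [lk5_bit _ _ ht, lk6_bit _ _ ht, tau_bit _ _ _ (by omega) (by omega), (ba_5 t ht).2.1]

theorem lk6_tau5 (m : Nat) : lk6 (tau 5 m) = lk5 m := by
  refine eq10 (lk6_lt _) (lk5_lt _) fun t ht => ?_
  rw [lk6_bit _ _ ht, lk5_bit _ _ ht, tau_bit _ _ _ (by omega) (by omega), (ba_5 t ht).2.2]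

/-- All letters are below 4. -/
def w4 (l : List Nat) : Bool := l.all (fun i => Nat.blt i 4)

theorem w4_cons {i : Nat} {l : List Nat} : w4 (i :: l) = true ↔ i < 4 ∧ w4 l = true := by
  simp [w4, Nat.blt_eq]

theorem w4_wok : ∀ {l : List Nat}, w4 l = true → wok l = true
  | [], _ => rfl
  | _ :: _, h => wok_cons.2 ⟨by have := (w4_cons.1 h).1; omega, w4_wok (w4_cons.1 h).2⟩

theorem lk5_awl : ∀ (l : List Nat) (m : Nat), w4 l = true → lk5 (awl l m) = al5 l (lk5 m)
  | [], _, _ => rfl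
  | i :: l, m, h => by
    obtain ⟨h1, h2⟩ := w4_cons.1 h
    rw [awl, lk5_awl l _ h2, lk5_tau i m h1]; rfl

theorem lk6_awl : ∀ (l : List Nat) (m : Nat), w4 l = true → lk6 (awl l m) = al5 l (lk6 m)
  | [], _, _ => rfl
  | i :: l, m, h => by
    obtain ⟨h1, h2⟩ := w4_cons.1 h
    rw [awl, lk6_awl l _ h2, lk6_tau i m h1]; rfl

theorem rt_awl : ∀ (l : List Nat) (m : Nat), w4 l = true → rt (awl l m) = rt (awl l (rt m))
  | [], m, _ => by
    unfold rt awl; simp
  | i :: l, m, h => by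
    obtain ⟨h1, h2⟩ := w4_cons.1 h
    rw [awl, rt_awl l _ h2, rt_tau i m h1, ← rt_awl l _ h2]; rfl

/-! Violations. -/

/-- Three edges among the four triples of a quadruple containing the vertex 5: root mask `s`,
link mask `l`. -/
def vio (s l : Nat) : Bool :=
  [(0, 0, 1, 2), (1, 0, 3, 4), (2, 1, 3, 5), (3, 2, 4, 5), (4, 0, 6, 7), (5, 1, 6, 8),
    (6, 2, 7, 8), (7, 3, 6, 9), (8, 4, 7, 9), (9, 5, 8, 9)].any
    (fun q => (l.testBit q.2.1 && l.testBit q.2.2.1 && l.testBit q.2.2.2) ||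
      (s.testBit q.1 && ((l.testBit q.2.1 && l.testBit q.2.2.1) ||
        (l.testBit q.2.1 && l.testBit q.2.2.2) || (l.testBit q.2.2.1 && l.testBit q.2.2.2))))

/-- Violation inside the roots. -/
def vio0 (s : Nat) : Bool :=
  [(0, 1, 2, 3), (0, 4, 5, 6), (1, 4, 7, 8), (2, 5, 7, 9), (3, 6, 8, 9)].any
    (fun q => (s.testBit q.1 && s.testBit q.2.1 && s.testBit q.2.2.1) ||
      (s.testBit q.1 && s.testBit q.2.1 && s.testBit q.2.2.2) ||
      (s.testBit q.1 && s.testBit q.2.2.1 && s.testBit q.2.2.2) ||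
      (s.testBit q.2.1 && s.testBit q.2.2.1 && s.testBit q.2.2.2))

theorem ixs_12 : ∀ a b c : Fin 7, ixs a.1 b.1 c.1 = ixs b.1 a.1 c.1 := by decide +kernel
theorem ixs_23 : ∀ a b c : Fin 7, ixs a.1 b.1 c.1 = ixs a.1 c.1 b.1 := by decide +kernel

theorem bt_12 (m : Nat) (a b c : Fin 7) : bt m a b c = bt m b a c := by
  unfold bt; rw [ixs_12]
theorem bt_23 (m : Nat) (a b c : Fin 7) : bt m a b c = bt m a c b := by
  unfold bt; rw [ixs_23]

/-- At most two of the four triples. -/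
def q4 (s x y z : Bool) : Bool :=
  (x && y && z) || (s && ((x && y) || (x && z) || (y && z)))

theorem adm_q4 {m : Nat} (h : Adm m) (a b c d : Fin 7) :
    q4 (bt m a b c) (bt m a b d) (bt m a c d) (bt m b c d) = false := by
  have h1 := h.free a b c d
  have h2 := h.free b a c d
  have h3 := h.free c a b d
  have h4 := h.free d a b c
  rw [bt_12 m b a c, bt_12 m b a d] at h2
  rw [bt_12 m c a b, bt_23 m a c b, bt_12 m c a d, bt_12 m c b d] at h3
  rw [bt_12 m d a b, bt_23 m a d b, bt_12 m d a c, bt_23 m a d c, bt_12 m d b c,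
    bt_23 m b d c] at h4
  generalize bt m a b c = s at *
  generalize bt m a b d = x at *
  generalize bt m a c d = y at *
  generalize bt m b c d = z at *
  cases s <;> cases x <;> cases y <;> cases z <;> simp_all [q4]

theorem vio_lk5 {m : Nat} (h : Adm m) : vio (rt m) (lk5 m) = false := by
  have e (t : Nat) (ht : t < 10) := lk5_bit m t ht
  have f (t : Nat) (ht : t < 10) := rt_bit m t ht
  simp only [vio, List.any_cons, List.any_nil, Bool.or_false, f _ (by norm_num : 0 < 10),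
    f _ (by norm_num : 1 < 10), f _ (by norm_num : 2 < 10), f _ (by norm_num : 3 < 10),
    f _ (by norm_num : 4 < 10), f _ (by norm_num : 5 < 10), f _ (by norm_num : 6 < 10),
    f _ (by norm_num : 7 < 10), f _ (by norm_num : 8 < 10), f _ (by norm_num : 9 < 10),
    e _ (by norm_num : 0 < 10),
    e _ (by norm_num : 1 < 10), e _ (by norm_num : 2 < 10), e _ (by norm_num : 3 < 10),
    e _ (by norm_num : 4 < 10), e _ (by norm_num : 5 < 10), e _ (by norm_num : 6 < 10),
    e _ (by norm_num : 7 < 10), e _ (by norm_num : 8 < 10), e _ (by norm_num : 9 < 10)]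
  have q0 := adm_q4 h 0 1 2 5
  have q1 := adm_q4 h 0 1 3 5
  have q2 := adm_q4 h 0 2 3 5
  have q3 := adm_q4 h 1 2 3 5
  have q4' := adm_q4 h 0 1 4 5
  have q5 := adm_q4 h 0 2 4 5
  have q6 := adm_q4 h 1 2 4 5
  have q7 := adm_q4 h 0 3 4 5
  have q8 := adm_q4 h 1 3 4 5
  have q9 := adm_q4 h 2 3 4 5
  simp only [Bool.or_eq_false_iff]
  exact ⟨Bool.or_eq_false_iff.1 q0, Bool.or_eq_false_iff.1 q1, Bool.or_eq_false_iff.1 q2,
    Bool.or_eq_false_iff.1 q3, Bool.or_eq_false_iff.1 q4', Bool.or_eq_false_iff.1 q5,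
    Bool.or_eq_false_iff.1 q6, Bool.or_eq_false_iff.1 q7, Bool.or_eq_false_iff.1 q8,
    Bool.or_eq_false_iff.1 q9⟩

theorem vio_lk6 {m : Nat} (h : Adm m) : vio (rt m) (lk6 m) = false := by
  have := vio_lk5 (adm_tau h 5 (by norm_num))
  rwa [rt_tau5, lk5_tau5] at this

theorem vio0_rt {m : Nat} (h : Adm m) : vio0 (rt m) = false := by
  have f (t : Nat) (ht : t < 10) := rt_bit m t ht
  simp only [vio0, List.any_cons, List.any_nil, Bool.or_false, f _ (by norm_num : 0 < 10),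
    f _ (by norm_num : 1 < 10), f _ (by norm_num : 2 < 10), f _ (by norm_num : 3 < 10),
    f _ (by norm_num : 4 < 10), f _ (by norm_num : 5 < 10), f _ (by norm_num : 6 < 10),
    f _ (by norm_num : 7 < 10), f _ (by norm_num : 8 < 10), f _ (by norm_num : 9 < 10)]
  have q0 := adm_q4 h 0 1 2 3
  have q1 := adm_q4 h 0 1 2 4
  have q2 := adm_q4 h 0 1 3 4
  have q3 := adm_q4 h 0 2 3 4
  have q4' := adm_q4 h 1 2 3 4
  have key : ∀ s x y z : Bool, q4 s x y z = false → ((s && x && y) || (s && x && z) ||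
      (s && y && z) || (x && y && z)) = false := by decide
  simp only [Bool.or_eq_false_iff]
  have k0 := key _ _ _ _ q0
  have k1 := key _ _ _ _ q1
  have k2 := key _ _ _ _ q2
  have k3 := key _ _ _ _ q3
  have k4 := key _ _ _ _ q4'
  simp only [Bool.or_eq_false_iff] at k0 k1 k2 k3 k4
  exact ⟨k0, k1, k2, k3, k4⟩

end KC
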