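import Pool.Agent.Helper13.KC.WT

set_option autoImplicit false
set_option maxRecDepth 100000

namespace KC

open WT

/-- Tree of the transversal. -/
def treeM : WT :=
  (B 3 (S 2 (S 4 (B 3 E (S 1 (S 2 (B 3 (S 2 (S 4 (B 3 E E) (S 5 (S 4 (B 3 E (S 1 (S 2 (B 3 (S 2 (S 4 (B 3 E E) (S 5 (S 4 (B 3 E E) E) E)) E) E) E) E)) E) E)) E) E) E) E)) (S 5 (S 4 (B 3 E (S 1 (S 2 (B 3 (S 2 (S 4 (B 3 E E) E) E) E) E) E)) E) E)) E) (S 2 (B 3 E E) (S 4 (B 3 E (S 2 (B 3 E E) E)) (S 1 (S 2 (B 3 E (S 4 (B 3 E E) E)) E) (S 5 (S 4 (B 3 E (S 2 (B 3 E E) (S 1 (S 2 (B 3 E E) E) E))) E) (S 0 (S 1 (S 2 (B 3 (S 2 (S 4 (B 3 E (S 1 (S 2 (B 3 (S 2 (S 5 (S 4 (B 3 E (S 0 (S 1 (S 2 (B 3 E E) E) E) E)) E) E) E) E) E) (S 0 (S 1 (S 2 (B 3 E (S 5 (S 4 (B 3 (S 2 (S 4 (B 3 E (S 1 (S 2 (B 3 E E) E) E)) E) E) E) E) E)) E) E) E))) (S 5 (S 4 (B 3 E (S 1 (S 2 (B 3 E E) E) E)) E) E)) E) (S 4 (B 3 (S 2 (S 5 (S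 4 (B 3 E (S 1 (S 2 (B 3 E E) E) E)) E) E) E) E) (S 5 (S 4 (B 3 E E) E) E))) E) E) E))))))

/-- Generators of the stabiliser. -/
def gensM : List (List Nat) := [[0], [1], [2], [4], [5]]

/-- Certificate. -/
def certsM : List (List (Nat × List Nat)) :=
  [[(0, [0]), (1, [0]), (2, [0]), (21, [1, 3]), (22, [2]), (23, [3, 4]), (32, [1, 3, 4, 3]), (7, [0, 1, 2, 1, 0]), (33, [2, 4]), (9, [0]), (29, [1, 3]), (30, [2]), (12, [0]), (13, [0]), (14, [0]), (20, []), (31, []), (17, [0]), (18, [0]), (34, []), (15, []), (3, [1, 3]), (4, [2]), (5, [4, 3]), (24, [3, 4, 3]), (25, [3]), (26, [3, 4, 3]), (27, [4]), (28, [4]), (10, [1, 3]), (11, [2]), (16, []), (6, [1, 3, 4, 3]), (8, [2, 4]), (19, [])],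
   [(0, [1]), (1, [1]), (3, [1]), (2, [1]), (4, [3]), (5, [3]), (7, [2, 3]), (6, [2, 3]), (8, [3, 4, 3]), (10, [1]), (9, [1]), (11, [3]), (15, []), (13, [1]), (16, []), (12, []), (14, []), (17, [1]), (19, []), (18, []), (20, [0]), (21, [0]), (25, []), (27, [2]), (24, [3]), (22, []), (30, [4]), (23, [2]), (33, [1, 2, 1, 4, 3]), (29, [0]), (26, [4]), (31, [0]), (32, [0]), (28, [1, 2, 1, 3, 4]), (34, [0])],
   [(0, [2]), (12, []), (2, [3]), (4, [2, 3]), (3, [2, 3]), (5, [3, 4, 3]), (8, [2, 3, 4]), (7, [3, 4, 3]), (6, [2, 4, 3]), (9, [3]), (11, [2, 3]), (10, [2, 3]), (1, []), (14, []), (13, []), (15, [1]), (16, [1]), (18, []), (17, []), (19, [1]), (20, [1]), (22, [1]), (21, [1]), (23, [3]), (27, [0, 2, 1, 3]), (25, [0, 1, 0]), (26, [0, 1, 0]), (24, [1, 0, 2, 3]), (28, [0, 1, 0]), (30, [1]), (29, [1]), (31, [1]), (33, [1]), (32, [1]), (34, [1])],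
   [(1, []), (0, []), (14, []), (16, [1]), (4, [1, 2, 1]), (8, [2, 1, 4]), (6, [3, 4, 3]), (7, [4]), (5, [1, 2, 4]), (18, []), (19, [1]), (11, [1, 2, 1]), (12, [2]), (13, [3]), (2, []), (15, [2]), (3, [1]), (17, [3]), (9, []), (10, [1]), (20, [2]), (31, [3]), (22, [1]), (33, [1, 4, 3]), (24, [0, 1, 0]), (25, [1]), (26, [1]), (28, [1]), (27, [1]), (34, [3]), (30, [1]), (21, [3]), (32, [3, 4, 3]), (23, [1, 3, 4]), (29, [3])],
   [(0, [3]), (13, []), (2, [2]), (3, [1, 2, 1]), (4, [1]), (5, [1]), (10, [4, 3]), (9, [1, 2, 4]), (11, [4]), (7, [2, 1, 4]), (6, [3, 4]), (8, [4]), (14, []), (1, []), (12, []), (16, []), (15, []), (17, [4]), (18, [4]), (19, [4]), (31, []), (21, [2]), (22, [1, 2, 1]), (23, [1]), (24, [0]), (25, [1, 2, 1]), (28, [1, 2, 1, 3]), (27, [1, 2, 1]), (26, [1, 2, 1, 3]), (32, []), (33, []), (20, []), (29, []), (30, []), (34, [4])],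
   [(0, [4]), (1, [4]), (9, []), (10, []), (11, []), (5, [2]), (6, [1, 2, 1]), (7, [1]), (8, [1]), (2, []), (3, []), (4, []), (12, [4]), (17, []), (18, []), (15, [4]), (19, []), (13, []), (14, []), (16, []), (20, [4]), (29, []), (30, []), (23, [2]), (24, [1, 2, 1]), (26, [4]), (25, [4]), (27, [2]), (28, [1, 2, 1]), (21, []), (22, []), (34, []), (32, [2]), (33, [1, 2, 1]), (31, [])]]

theorem invTM : invAll treeM.tr gensM certsM = true := by decide +kernel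

end KC
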