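import Pool.Agent.Helper13.KC.Core

set_option autoImplicit false

/-!
Symmetrisation over a transversal, and its invariance from a finite check.
-/

namespace KC

open KF

/-- Sum of the integrand `g` over the arrangements of the transversal. -/
def fam (Tr : List (List Nat)) (g : Nat → ℤ) (m : Nat) : ℤ :=
  (Tr.map (fun W => g (awl W m))).sum

section
variable {V : Type} [Fintype V]

theorem Ev_fam {E : V → V → V → Bool} (hE : K4m E) (w : V → ℝ) (hw : ∑ v, w v = 1)
    (g : Nat → ℤ) : ∀ Tr : List (List Nat), (∀ W ∈ Tr, wok W = true) →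
    Ev 7 w (fun φ => ((fam Tr g (msk E φ) : ℤ) : ℝ)) =
      (Tr.length : ℝ) * Ev 7 w (fun φ => ((g (msk E φ) : ℤ) : ℝ))
  | [], _ => by simp [fam, Ev]
  | W :: Tr, h => by
    have ih := Ev_fam hE w hw g Tr (fun W hW => h W (List.mem_cons_of_mem _ hW))
    have h1 := Ev_awl hE w hw (fun m => ((g m : ℤ) : ℝ)) W (h W List.mem_cons_self)
    have h2 : (fun φ => ((fam (W :: Tr) g (msk E φ) : ℤ) : ℝ)) =
        fun φ => ((g (awl W (msk E φ)) : ℤ) : ℝ) + ((fam Tr g (msk E φ) : ℤ) : ℝ) := by
      funext φ
      simp [fam]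
    rw [h2, Ev_add, ih, h1]
    simp only [List.length_cons, Nat.cast_add, Nat.cast_one]
    ring

end

/-- 7-tuples of numbers. -/
inductive P7
  | mk (a b c d e f g : Nat)

namespace P7

/-- The identity arrangement. -/
def one : P7 := mk 0 1 2 3 4 5 6

/-- Exchange of the entries `i`, `i + 1`. -/
def sw (i : Nat) : P7 → P7
  | mk a b c d e f g =>
    bif Nat.beq i 0 then mk b a c d e f g else bif Nat.beq i 1 then mk a c b d e f g else
    bif Nat.beq i 2 then mk a b d c e f g else bif Nat.beq i 3 then mk a b c e d f g else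
    bif Nat.beq i 4 then mk a b c d f e g else mk a b c d e g f

/-- The entry with index `i`. -/
def get : P7 → Nat → Nat
  | mk a b c d e f g, i =>
    if i = 0 then a else if i = 1 then b else if i = 2 then c else if i = 3 then d else
    if i = 4 then e else if i = 5 then f else g

/-- Equality test. -/
def eqb : P7 → P7 → Bool
  | mk a b c d e f g, mk a' b' c' d' e' f' g' =>
    Nat.beq a a' && (Nat.beq b b' && (Nat.beq c c' && (Nat.beq d d' && (Nat.beq e e' &&
      (Nat.beq f f' && Nat.beq g g')))))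

theorem eq_of_eqb {p q : P7} (h : eqb p q = true) : p = q := by
  obtain ⟨a, b, c, d, e, f, g⟩ := p
  obtain ⟨a', b', c', d', e', f', g'⟩ := q
  simp only [eqb, Bool.and_eq_true] at h
  obtain ⟨h1, h2, h3, h4, h5, h6, h7⟩ := h
  rw [Nat.eq_of_beq_eq_true h1, Nat.eq_of_beq_eq_true h2, Nat.eq_of_beq_eq_true h3,
    Nat.eq_of_beq_eq_true h4, Nat.eq_of_beq_eq_true h5, Nat.eq_of_beq_eq_true h6,
    Nat.eq_of_beq_eq_true h7]

theorem sw_get (i : Nat) (hi : i < 6) (p : P7) (a : Fin 7) :
    (p.sw i).get a.1 = p.get (swF i a).1 := by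
  obtain ⟨x0, x1, x2, x3, x4, x5, x6⟩ := p
  have : i = 0 ∨ i = 1 ∨ i = 2 ∨ i = 3 ∨ i = 4 ∨ i = 5 := by omega
  rcases this with rfl | rfl | rfl | rfl | rfl | rfl <;> fin_cases a <;> rfl

end P7

/-- The arrangement reached by a word. -/
def wp : List Nat → P7 → P7
  | [], p => p
  | i :: l, p => wp l (p.sw i)

theorem wp_get : ∀ (l : List Nat), wok l = true → ∀ (p : P7) (a : Fin 7),
    (wp l p).get a.1 = p.get (vw l a).1
  | [], _, _, _ => rfl
  | i :: l, hl, p, a => by
    obtain ⟨h1, h2⟩ := wok_cons.1 hl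
    rw [wp, wp_get l h2, P7.sw_get i h1]
    rfl

theorem one_get : ∀ a : Fin 7, P7.one.get a.1 = a.1 := by decide

/-- Equality of two words as permutations. -/
def eq7 (l k : List Nat) : Bool := P7.eqb (wp l P7.one) (wp k P7.one)

theorem vw_of_eq7 {l k : List Nat} (hl : wok l = true) (hk : wok k = true)
    (h : eq7 l k = true) (a : Fin 7) : vw l a = vw k a := by
  have := P7.eq_of_eqb h
  have h1 := wp_get l hl P7.one a
  have h2 := wp_get k hk P7.one a
  rw [one_get] at h1 h2
  rw [this] at h1
  exact Fin.ext (by omega)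

theorem awl_of_eq7 {l k : List Nat} (hl : wok l = true) (hk : wok k = true)
    (h : eq7 l k = true) {m : Nat} (hm : m < 2 ^ 35) : awl l m = awl k m :=
  awl_congr hl hk (vw_of_eq7 hl hk h) hm

/-- Concatenation of generators. -/
def flat (gens : List (List Nat)) : List Nat → List Nat
  | [] => []
  | k :: l => gens.getD k [] ++ flat gens l

theorem wok_getD {gens : List (List Nat)} (h : ∀ W ∈ gens, wok W = true) (k : Nat) :
    wok (gens.getD k []) = true := by
  by_cases hk : k < gens.length
  · rw [List.getD_eq_getElem _ _ hk]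
    exact h _ (List.getElem_mem hk)
  · rw [List.getD_eq_default _ _ (by omega)]
    rfl

theorem wok_flat {gens : List (List Nat)} (h : ∀ W ∈ gens, wok W = true) :
    ∀ l : List Nat, wok (flat gens l) = true
  | [] => rfl
  | k :: l => wok_append (wok_getD h k) (wok_flat h l)

theorem inv_flat {gens : List (List Nat)} (hok : ∀ W ∈ gens, wok W = true) {g : Nat → ℤ}
    (hg : ∀ W ∈ gens, ∀ m, Adm m → g (awl W m) = g m) :
    ∀ (l : List Nat) (m : Nat), Adm m → g (awl (flat gens l) m) = g m
  | [], _, _ => rfl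
  | k :: l, m, hm => by
    rw [flat, awl_append]
    by_cases hk : k < gens.length
    · have hmem : gens.getD k [] ∈ gens := by
        rw [List.getD_eq_getElem _ _ hk]
        exact List.getElem_mem hk
      rw [inv_flat hok hg l _ (adm_awl _ (hok _ hmem) hm), hg _ hmem m hm]
    · rw [List.getD_eq_default _ _ (by omega)]
      exact inv_flat hok hg l m hm

/-- The words after a swap are, up to generators, the words of the transversal. -/
def inv1 (Tr gens : List (List Nat)) (i : Nat) : List (List Nat) → List (Nat × List Nat) → Bool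
  | [], [] => true
  | W :: Ws, c :: cs =>
    eq7 (i :: W) (Tr.getD c.1 [] ++ flat gens c.2) && inv1 Tr gens i Ws cs
  | _, _ => false

/-- Check of the invariance under all six swaps. -/
def invAll (Tr gens : List (List Nat)) (certs : List (List (Nat × List Nat))) : Bool :=
  Tr.all wok && (gens.all wok && (Nat.beq certs.length 6 &&
    ((List.range 6).all (fun i => inv1 Tr gens i Tr (certs.getD i []) &&
      ((certs.getD i []).map Prod.fst).isPerm (List.range Tr.length)))))

theorem inv1_sum {Tr gens : List (List Nat)} (hTr : ∀ W ∈ Tr, wok W = true)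
    (hgens : ∀ W ∈ gens, wok W = true) {g : Nat → ℤ}
    (hg : ∀ W ∈ gens, ∀ m, Adm m → g (awl W m) = g m) (i : Nat) (hi : i < 6) {m : Nat}
    (hm : Adm m) : ∀ (Ws : List (List Nat)) (cs : List (Nat × List Nat)),
    (∀ W ∈ Ws, wok W = true) → inv1 Tr gens i Ws cs = true →
    (Ws.map (fun W => g (awl W (tau i m)))).sum =
      ((cs.map Prod.fst).map (fun y => g (awl (Tr.getD y []) m))).sum
  | [], [], _, _ => rfl
  | [], _ :: _, _, h => by simp [inv1] at h
  | _ :: _, [], _, h => by simp [inv1] at h
  | W :: Ws, c :: cs, hW, h => by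
    rw [inv1, Bool.and_eq_true] at h
    have ih := inv1_sum hTr hgens hg i hi hm Ws cs
      (fun W h' => hW W (List.mem_cons_of_mem _ h')) h.2
    have hWok := hW W List.mem_cons_self
    have e1 : awl W (tau i m) = awl (Tr.getD c.1 [] ++ flat gens c.2) m :=
      awl_of_eq7 (l := i :: W) (wok_cons.2 ⟨hi, hWok⟩)
        (wok_append (wok_getD hTr _) (wok_flat hgens _)) h.1 hm.lt
    have e2 : g (awl W (tau i m)) = g (awl (Tr.getD c.1 []) m) := by
      rw [e1, awl_append]
      exact inv_flat hgens hg _ _ (adm_awl _ (wok_getD hTr _) hm)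
    simp only [List.map_cons, List.sum_cons, ih, e2]

theorem fam_tau {Tr gens : List (List Nat)} {certs : List (List (Nat × List Nat))}
    (h : invAll Tr gens certs = true) {g : Nat → ℤ}
    (hg : ∀ W ∈ gens, ∀ m, Adm m → g (awl W m) = g m) {m : Nat} (hm : Adm m) (i : Nat)
    (hi : i < 6) : fam Tr g (tau i m) = fam Tr g m := by
  simp only [invAll, Bool.and_eq_true, List.all_eq_true, List.mem_range] at h
  obtain ⟨h1, h2, -, h4⟩ := h
  obtain ⟨h5, h6⟩ := h4 i hi
  rw [fam, inv1_sum h1 h2 hg i hi hm Tr _ h1 h5]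
  have hp : List.Perm ((certs.getD i []).map Prod.fst) (List.range Tr.length) :=
    List.isPerm_iff.1 h6
  rw [(hp.map _).sum_eq, fam]
  congr 1
  apply List.ext_getElem
  · simp
  · intro k hk1 hk2
    simp only [List.length_map, List.length_range] at hk1
    simp [hk1]

/-- Invariance under words. -/
theorem fam_awl {Tr gens : List (List Nat)} {certs : List (List (Nat × List Nat))}
    (h : invAll Tr gens certs = true) {g : Nat → ℤ}
    (hg : ∀ W ∈ gens, ∀ m, Adm m → g (awl W m) = g m) :
    ∀ (l : List Nat), wok l = true → ∀ m, Adm m → fam Tr g (awl l m) = fam Tr g m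
  | [], _, _, _ => rfl
  | i :: l, hl, m, hm => by
    obtain ⟨h1, h2⟩ := wok_cons.1 hl
    rw [awl, fam_awl h hg l h2 _ (adm_tau hm i h1), fam_tau h hg hm i h1]

end KC
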