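import Pool.Agent.Helper13.KC.WT

set_option autoImplicit false
set_option maxRecDepth 100000

namespace KC

open WT

/-- Tree of the transversal. -/
def treeD : WT :=
  (B 0 E (B 4 (B 0 E (S 3 (S 5 (B 4 (B 0 E (S 1 (B 0 E E) E)) E) (S 2 (S 1 (B 0 (B 4 (S 3 (S 5 (B 4 E E) E) E) (S 3 (B 4 E E) (S 5 (B 4 E (S 3 (B 4 (B 0 E (S 1 (B 0 E (S 2 (S 3 (B 4 (B 0 E (S 1 (B 0 (S 5 (B 4 E (S 3 (B 4 (B 0 E (S 1 (B 0 E (S 2 (S 3 (B 4 E E) E) E)) E)) (S 2 (S 1 (B 0 E E) E) E)) (S 2 (S 3 (B 4 E E) E) E))) E) E) (S 2 (S 1 (B 0 (S 3 (B 4 E E) E) E) E) E))) E) E) E)) E)) E) E)) E))) E) E) E)) E)) (S 1 (B 0 (B 4 E E) (S 2 (S 3 (B 4 (B 0 E (S 1 (B 0 E E) (S 2 (S 1 (B 0 (S 5 (B 4 E (S 3 (B 4 (B 0 E (S 1 (B 0 E (S 2 (S 3 (B 4 (B 0 (S 5 (B 4 E (S 3 (B 4 (B 0 E E) E) (S 2 (S 3 (B 4 E E) E) E))) E) (S 1 (B 0 E E) E)) (S 2 (S 1 (B 0 (B 4 E E) E) E) E)) E) E)) E)) E) (S 2 (S 3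 (B 4 E E) E) E))) E) E) E) (S 3 (S 5 (B 4 (B 0 E (S 1 (B 0 E (S 2 (S 3 (B 4 (B 0 E (S 1 (B 0 E E) E)) (S 2 (S 1 (B 0 (B 4 E (S 3 (B 4 E (S 5 (B 4 E E) E)) (S 5 (B 4 E E) E))) E) E) E)) E) E)) E)) E) (S 2 (S 1 (B 0 (S 5 (B 4 E (S 3 (B 4 E E) E)) E) E) E) E)) E)))) (S 5 (B 4 (B 0 E (S 1 (B 0 E E) E)) E) E)) E) E)) (S 3 (B 4 (B 0 E (S 1 (B 0 E E) E)) (S 2 (S 1 (B 0 (B 4 (S 3 (S 5 (B 4 (B 0 E (S 1 (B 0 E (S 2 (S 3 (B 4 (B 0 E (S 1 (B 0 E E) E)) (S 5 (B 4 (B 0 E (S 1 (B 0 E E) E)) E) (S 2 (S 1 (B 0 (B 4 (S 3 (S 5 (B 4 (B 0 E (S 1 (B 0 E E) E)) E) E) E) (S 3 (B 4 E (S 5 (B 4 E E) E)) (S 5 (B 4 E E) E))) E) E) E))) E) E)) E)) E) E) E) (S 3 (B 4 E E) (S 5 (B 4 E (S 3 (B 4 E E) E)) E))) E) E) E)) (S 5 (B 4 (B 0 E (S 1 (B 0 E E) E)) (S 3 (B 4 (B 0 E (S 1 (B 0 E E) E)) E) E)) (S 2 (S 1 (B 0 (B 4 (S 3 (S 5 (B 4 E E) E) E) (S 5 (B 4 E E) E)) E) (S 3 (B 4 (B 0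 E (S 1 (B 0 E E) E)) (S 5 (B 4 (B 0 E (S 1 (B 0 E E) E)) E) E)) E)) E))))))

/-- Generators of the stabiliser. -/
def gensD : List (List Nat) := [[1], [2], [3], [5]]

/-- Certificate. -/
def certsD : List (List (Nat × List Nat)) :=
  [[(1, []), (0, []), (3, []), (2, []), (5, []), (4, []), (6, [0]), (7, [0]), (8, [0]), (9, [0]), (10, [0]), (11, [0]), (12, [0]), (14, []), (13, []), (59, [1, 2, 3]), (47, [0, 1, 0, 2, 3]), (49, [1, 0, 2, 3]), (51, [0]), (31, [2, 1, 0, 3]), (58, [1, 0, 3]), (29, [0, 2, 1, 3]), (63, [3]), (48, [0, 1]), (24, [3]), (53, [1, 0, 3]), (26, [1, 2, 1]), (27, [0]), (28, [0]), (21, [1, 0, 2, 3]), (40, [1, 0, 2, 1, 0, 3]), (19, [0, 1, 2, 3]), (41, [1, 2, 1, 0, 3]), (81, [0, 1, 2]), (72, [2, 1, 3]), (73, [2, 1, 3]), (39, [2, 1]), (37, [3]), (38, [3]), (36, [1, 2]), (30, [0, 1, 0, 2, 1, 3]), (32, [0, 1, 2, 1, 3]), (62, [0, 1, 0, 2,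 1, 3]), (43, [3]), (79, [1, 2, 1, 3]), (45, [3]), (75, [2, 1, 3]), (16, [0, 2, 1, 0, 3]), (23, [1, 0]), (17, [0, 2, 1, 3]), (76, [0, 1, 2, 1, 0, 3]), (18, [0]), (77, [0, 1, 2, 1, 3]), (25, [0, 1, 3]), (85, [0, 1, 2, 1, 3]), (80, [0, 1, 2, 1]), (56, [0, 1, 2, 1, 0]), (57, [0, 1, 2, 1, 0]), (20, [0, 1, 3]), (15, [2, 1, 3]), (74, [0, 2, 1, 3]), (82, [0, 1, 0, 2, 1, 3]), (42, [1, 0, 2, 1, 0, 3]), (22, [3]), (65, []), (64, []), (66, [0]), (67, [0]), (68, [0]), (69, [0]), (71, []), (70, []), (34, [1, 2, 3]), (35, [1, 2, 3]), (60, [1, 0, 2, 3]), (46, [1, 2, 3]), (50, [0, 1, 2, 1, 0, 3]), (52, [1, 2, 1, 0, 3]), (78, [1, 2, 1]), (44, [1, 2, 1, 3]), (55, [1, 2, 1, 0]), (33, [2, 1, 0]), (61, [1, 0, 2, 1, 0, 3]), (83, [1]), (84, [1]), (54, [1, 2, 1, 0, 3]), (86, [0]), (87, [0]), (88, [0]), (90, []), (89, []), (91, [0]), (93, []), (92, []), (94, [0]), (95, [0]),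 (96, [0]), (97, [0]), (98, [0]), (100, []), (99, []), (101, [0]), (103, []), (102, []), (104, [0])],
   [(0, [0]), (27, []), (2, [0]), (28, []), (4, [0]), (6, []), (5, []), (7, [1]), (8, [1]), (60, [3]), (58, []), (11, [1]), (59, [3]), (47, [1, 0, 3]), (48, [1, 0, 3]), (15, [0, 1, 2, 1, 0]), (23, [0, 2, 3]), (17, [1, 2, 1]), (24, [1]), (19, [1]), (20, [1]), (40, [0, 1, 0, 2]), (22, [0]), (16, [0, 2, 3]), (18, [1]), (25, [1, 2, 1]), (26, [1]), (1, []), (3, []), (99, []), (100, []), (101, []), (86, []), (88, [3]), (69, [3]), (70, [3]), (71, [3]), (75, []), (76, []), (73, [3]), (21, [0, 2, 1, 0]), (41, [0, 1, 2, 1, 0]), (82, [0, 2]), (77, []), (78, [3]), (85, []), (46, [3]), (13, [0, 1, 3]), (14, [0, 1, 3]), (97, [3]), (50, [3]), (51, [3]), (52, [3]), (57, [3]), (54, [3]), (84, [0, 1, 0, 2, 1]), (56, [2]), (53, [3]), (10, []), (12, [3]), (9, [3]), (102,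 []), (103, []), (104, []), (64, [0]), (66, []), (65, []), (67, [1]), (68, [1]), (34, [3]), (35, [3]), (36, [3]), (72, [0, 1, 2, 1, 0]), (39, [3]), (74, [1, 2, 1]), (37, []), (38, []), (43, []), (44, [3]), (79, [1, 2, 1]), (80, [1]), (81, [1]), (42, [0, 2]), (83, [1, 2, 1]), (55, [1, 0, 2, 1, 0]), (45, []), (32, []), (87, [1]), (33, [3]), (89, [0]), (91, []), (90, []), (92, [0]), (94, []), (93, []), (95, [1]), (96, [1]), (49, [3]), (98, [1]), (29, []), (30, []), (31, []), (61, []), (62, []), (63, [])],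
   [(0, [1]), (1, [1]), (2, [1]), (3, [1]), (13, [0, 1]), (14, [0, 1]), (97, []), (7, [2]), (10, []), (9, [3]), (8, []), (12, []), (11, []), (4, [1, 0]), (5, [1, 0]), (15, [1, 2, 1]), (16, [1, 2, 1]), (23, [0, 1, 2, 3]), (39, [0, 1, 2, 1]), (40, [0, 1, 2, 1]), (20, [0, 1, 0]), (21, [0, 1, 0]), (42, [1, 0, 2, 1, 0]), (17, [2, 1, 0, 3]), (38, [0, 1, 2, 3]), (25, [2]), (57, [0, 1, 0, 2, 1]), (95, []), (96, []), (29, [0]), (31, []), (30, []), (32, [1]), (33, [1]), (46, []), (50, [2, 1, 0]), (51, [2, 1, 0]), (37, [0, 1, 2, 1, 0]), (24, [2, 1, 0, 3]), (18, [1, 2, 1, 0]), (19, [1, 2, 1, 0]), (41, [0, 1, 0]), (22, [0, 1, 0, 2, 1]), (43, [1, 2, 1]), (54, [0, 1, 2, 1, 0]), (45, [1, 2, 1]), (34, []), (47, [0]), (49, []), (48, []), (35, [0, 1, 2]), (36, [0, 1, 2]), (60, [2]), (53, [1, 2, 1]), (44, [0, 1, 2, 1, 0]), (55, [1]), (56, [1]), (26, [1, 0, 2, 1, 0]),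 (58, [1]), (59, [1]), (52, [2]), (61, [0]), (63, []), (62, []), (99, []), (100, []), (101, []), (67, [2]), (86, []), (69, [3]), (70, [3]), (71, [3]), (75, []), (76, []), (77, []), (72, []), (73, []), (74, []), (78, [3]), (85, []), (80, [2]), (81, [2]), (82, [2]), (84, []), (83, []), (79, []), (68, []), (88, []), (87, []), (89, [1]), (90, [1]), (98, []), (102, []), (103, []), (104, []), (27, []), (28, []), (6, []), (91, []), (64, []), (65, []), (66, []), (92, []), (93, []), (94, [])],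
   [(0, [2]), (1, [2]), (64, []), (65, []), (4, [3]), (5, [3]), (6, [3]), (8, []), (7, []), (12, []), (10, [2]), (11, [3]), (9, []), (70, [0, 1, 0]), (71, [0, 1, 0]), (74, [0]), (73, [0]), (72, [0]), (75, [0, 3]), (41, [0, 2, 1]), (20, [0, 1, 2, 1, 0]), (21, [0, 1, 2, 1, 0]), (81, [0, 1, 2]), (39, [2]), (37, [0, 1, 3]), (79, [0, 1, 0]), (26, [3]), (27, [2]), (66, []), (29, [1]), (30, [1]), (32, []), (31, []), (63, [3]), (49, []), (47, [0]), (48, [0]), (24, [1, 0, 3]), (38, [0, 1, 2, 1, 0]), (23, [2]), (40, [0, 1, 0]), (19, [1, 0, 2]), (42, [0, 1, 0]), (43, [0, 1, 2, 1, 0]), (53, [0, 1, 2, 1]), (45, [0, 1, 2, 1, 0]), (51, [2, 1]), (35, [0]), (36, [0]), (34, []), (50, [0, 1, 2, 1, 0]), (46, [1, 2]), (52, [1, 2, 1]), (44, [1, 2, 1, 0]), (54, [1, 2, 1]), (55, [1, 2, 1]), (83, [1, 0, 2]), (78, [1, 2, 1, 0]), (58, [2]), (60, []), (59, []), (61, [1]), (62,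 [1]), (33, [3]), (2, []), (3, []), (28, []), (95, []), (96, []), (97, []), (13, [0, 1, 0]), (14, [0, 1, 0]), (17, [0]), (16, [0]), (15, [0]), (18, [0, 3]), (76, [0, 1, 2, 1, 0]), (77, [0, 1, 2, 1, 0]), (57, [0, 1, 2, 1]), (25, [0, 1, 0]), (80, [0, 1, 2, 1, 0]), (22, [2, 1, 0]), (82, [1, 2, 1]), (56, [0, 2, 1]), (84, [0, 1, 2, 1, 0]), (85, [0, 1, 2, 1, 0]), (101, []), (98, []), (104, []), (92, []), (93, []), (94, []), (89, []), (90, []), (91, []), (67, []), (68, []), (69, []), (87, []), (99, [1]), (100, [1]), (86, []), (102, [1]), (103, [1]), (88, [])],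
   [(2, []), (3, []), (0, []), (1, []), (92, []), (93, []), (94, []), (67, []), (68, []), (69, []), (86, []), (87, []), (88, []), (102, [1, 0]), (103, [1, 0]), (81, [0, 2, 1, 3]), (82, [0, 2, 1, 3]), (22, [1, 0, 2, 3]), (18, [0, 1, 2, 1, 0]), (19, [0, 1, 2, 1, 0]), (41, [1, 0, 2, 1]), (21, [1, 2, 1]), (17, [0, 2, 1, 3]), (42, [1, 0, 2]), (24, [0, 1, 2, 1, 0]), (80, [2, 3]), (83, [2, 3]), (28, []), (27, []), (29, [2]), (30, [2]), (31, [2]), (58, []), (59, []), (60, []), (35, [0, 1, 0]), (36, [0, 1, 0]), (43, [0]), (38, [0]), (39, [0]), (40, [0]), (20, [1, 0, 2, 1]), (23, [0, 2, 1]), (37, [0]), (44, [0, 1, 0]), (45, [0, 1, 0]), (52, [2]), (61, [3]), (62, [3]), (63, [3]), (50, [1, 2, 1]), (51, [1, 2, 1]), (46, [2]), (55, [2]), (54, [2]), (53, [2]), (56, [3]), (84, [1, 0, 2, 1, 3]), (32, []), (33, []), (34, []), (47, [3]), (48, [3]), (49, [3]), (64, [2]),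 (65, [2]), (66, [2]), (7, []), (8, []), (9, []), (70, [0, 1, 0]), (71, [0, 1, 0]), (74, [0]), (73, [0]), (72, [0]), (77, [0]), (76, [0]), (75, [0]), (78, [0, 1, 0]), (79, [0, 1, 0]), (25, [2, 3]), (15, [1, 0, 2, 3]), (16, [1, 0, 2, 3]), (26, [2, 3]), (57, [1, 0, 2, 1, 3]), (85, [0, 1, 0]), (10, []), (11, []), (12, []), (89, [3]), (90, [3]), (91, [3]), (4, []), (5, []), (6, []), (96, []), (95, []), (104, []), (98, [3]), (99, [2]), (100, [2]), (101, [2]), (13, [0, 1]), (14, [0, 1]), (97, [])],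
   [(0, [3]), (1, [3]), (89, []), (90, []), (4, [2]), (5, [2]), (6, [2]), (56, [1, 2, 1, 3]), (83, [0, 1, 0, 2, 3]), (78, [0, 2, 1, 0]), (84, [0, 1, 0, 2, 3]), (26, [0, 1, 2, 1, 0]), (57, [2, 1]), (13, [0, 1, 2, 1, 0]), (14, [0, 1, 2, 1, 0]), (25, [0, 1]), (16, [0, 1, 0]), (17, [0, 1, 0]), (18, [0, 1, 0]), (22, [2, 1, 0]), (80, [0, 1, 2, 1, 0]), (82, [1, 2, 1, 0]), (19, [0, 1, 2]), (23, [1, 2, 1]), (24, [0]), (15, [1, 0]), (11, [0, 1, 2, 1, 0]), (27, [3]), (91, []), (61, []), (62, []), (63, []), (33, [3]), (32, [3]), (34, [2]), (35, [2]), (36, [2]), (37, [1]), (38, [1]), (39, [1]), (42, []), (81, [1, 0, 2]), (40, []), (45, []), (60, [0, 1, 0, 2]), (43, []), (46, [2]), (47, [2]), (48, [2]), (49, [2]), (50, [1]), (51, [1]), (54, []), (59, [1, 2]), (52, []), (58, [1, 3]), (7, [1, 2, 1, 3]), (12, [1, 2]), (55, [1, 3]), (53, [2, 1]), (44, [0, 2, 1, 0]),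 (29, []), (30, []), (31, []), (92, []), (93, []), (94, []), (67, [3]), (87, []), (69, [2]), (70, [2]), (71, [2]), (72, [1]), (73, [1]), (79, []), (75, [1]), (76, [1]), (85, []), (9, [0, 1, 0, 2]), (74, []), (20, [0, 1, 2, 1, 0]), (41, [0, 2, 1]), (21, [0, 1, 2, 1]), (8, [0, 2, 1, 0, 3]), (10, [0, 2, 1, 0, 3]), (77, []), (88, []), (68, []), (86, []), (2, []), (3, []), (28, []), (64, []), (65, []), (66, []), (95, [3]), (98, []), (97, [2]), (96, []), (102, []), (103, []), (104, []), (99, []), (100, []), (101, [])]]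

theorem invTD : invAll treeD.tr gensD certsD = true := by decide +kernel

end KC
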