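import Pool.Agent.Helper13.KC.WT

set_option autoImplicit false

/-!
Evaluation of the integrands by tables.
-/

namespace KC

/-- Entry `i` of width `s` of a packed number (`M = 2 ^ s - 1`). -/
def ent (X s M i : Nat) : Nat := Nat.land (Nat.shiftRight X (Nat.mul s i)) M

/-- Apply a coded word (3 bits per letter, letters + 1, end = 0), at most `n` letters. -/
noncomputable def awN (n : Nat) : Nat → Nat → Nat :=
  Nat.rec (motive := fun _ => Nat → Nat → Nat) (fun _ m => m)
    (fun _ ih w m => Bool.rec (motive := fun _ => Nat)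
      (ih (Nat.shiftRight w 3) (tau (Nat.pred (Nat.land w 7)) m)) m (Nat.beq w 0)) n

/-- The letters of a coded word. -/
def decw : Nat → Nat → List Nat
  | 0, _ => []
  | n + 1, w => if w = 0 then [] else (Nat.pred (w &&& 7)) :: decw n (w >>> 3)

theorem awN_eq : ∀ (n w m : Nat), awN n w m = awl (decw n w) m
  | 0, _, _ => rfl
  | n + 1, w, m => by
    change Bool.rec (motive := fun _ => Nat)
      (awN n (Nat.shiftRight w 3) (tau (Nat.pred (Nat.land w 7)) m)) m (Nat.beq w 0) = _
    rw [awN_eq n]
    by_cases h : w = 0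
    · subst h; rfl
    · have : Nat.beq w 0 = false := by
        cases hb : Nat.beq w 0
        · rfl
        · exact absurd (Nat.eq_of_beq_eq_true hb) h
      rw [this, decw, if_neg h]
      rfl

theorem land_mod (x k : Nat) : Nat.land x (2 ^ k - 1) = x % 2 ^ k :=
  Nat.and_two_pow_sub_one_eq_mod x k

theorem shift_div (x k : Nat) : Nat.shiftRight x k = x / 2 ^ k :=
  Nat.shiftRight_eq_div_pow x k

end KC
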