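import Pool.Agent.Helper13.KC.S5c

set_option autoImplicit false

/-!
Terms with three roots and with one root.
-/

namespace KC

open KF

/-- Code of the flag on the vertices 0,1,2 | 3,4. -/
def cA (m : Nat) : Nat := m / 2 % 512

/-- Code of the flag on the vertices 0,1,2 | 5,6. -/
def cB (m : Nat) : Nat :=
  Nat.lor (Nat.land (Nat.shiftRight m 10) 7) (Nat.lor (Nat.land (Nat.shiftRight m 17) 56)
    (Nat.land (Nat.shiftRight m 24) 448))

/-- Bit positions of `cB`. -/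
def bB (s : Nat) : Nat := if s < 3 then 10 + s else if s < 6 then 17 + s else 24 + s

theorem cA_bit (m s : Nat) (hs : s < 9) : (cA m).testBit s = m.testBit (s + 1) := by
  unfold cA
  rw [show (512 : Nat) = 2 ^ 9 by norm_num, Nat.testBit_mod_two_pow,
    show m / 2 = m >>> 1 by rw [Nat.shiftRight_eq_div_pow], Nat.testBit_shiftRight]
  simp [hs, Nat.add_comm]

theorem cA_lt (m : Nat) : cA m < 2 ^ 9 := Nat.mod_lt _ (by norm_num)

theorem cB_bit (m s : Nat) (hs : s < 9) : (cB m).testBit s = m.testBit (bB s) := by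
  have key : ∀ s < 9, ((Nat.testBit 7 s = true ∧ Nat.testBit 56 s = false ∧
      Nat.testBit 448 s = false ∧ bB s = 10 + s) ∨ (Nat.testBit 7 s = false ∧
      Nat.testBit 56 s = true ∧ Nat.testBit 448 s = false ∧ bB s = 17 + s) ∨
      (Nat.testBit 7 s = false ∧ Nat.testBit 56 s = false ∧
      Nat.testBit 448 s = true ∧ bB s = 24 + s)) := by decide
  unfold cB
  rw [lor_bit, lor_bit, land_bit, land_bit, land_bit]
  change (Nat.testBit (m >>> 10) s && _ || (Nat.testBit (m >>> 17) s && _ ||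
    Nat.testBit (m >>> 24) s && _)) = _
  rw [Nat.testBit_shiftRight, Nat.testBit_shiftRight, Nat.testBit_shiftRight]
  rcases key s hs with ⟨h1, h2, h3, h4⟩ | ⟨h1, h2, h3, h4⟩ | ⟨h1, h2, h3, h4⟩ <;>
    rw [h1, h2, h3, h4] <;> simp

theorem cB_lt (m : Nat) : cB m < 2 ^ 9 := by
  unfold cB
  refine Nat.or_lt_two_pow (lt_of_le_of_lt Nat.and_le_right (by norm_num))
    (Nat.or_lt_two_pow (lt_of_le_of_lt Nat.and_le_right (by norm_num))
      (lt_of_le_of_lt Nat.and_le_right (by norm_num)))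

theorem eq9 {a b : Nat} (ha : a < 2 ^ 9) (hb : b < 2 ^ 9)
    (h : ∀ t < 9, a.testBit t = b.testBit t) : a = b := by
  refine Nat.eq_of_testBit_eq fun t => ?_
  by_cases ht : t < 9
  · exact h t ht
  · rw [Nat.testBit_eq_false_of_lt (lt_of_lt_of_le ha
      (Nat.pow_le_pow_right (by norm_num) (by omega))),
      Nat.testBit_eq_false_of_lt (lt_of_lt_of_le hb
      (Nat.pow_le_pow_right (by norm_num) (by omega)))]

/-- Action of the swaps 0, 1, 3 on the codes. -/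
def a3 (i c : Nat) : Nat := cA (tau i (2 * c))

theorem a3_lt (i c : Nat) : a3 i c < 2 ^ 9 := cA_lt _

theorem a3_bit (i c s : Nat) (hi : i < 6) (hs : s < 9) :
    (a3 i c).testBit s = (2 * c).testBit (ba i (s + 1)) := by
  rw [a3, cA_bit _ _ hs, tau_bit _ _ _ hi (by omega)]

theorem two_mul_bit (c t : Nat) (ht : 1 ≤ t) : (2 * c).testBit t = c.testBit (t - 1) := by
  obtain ⟨u, rfl⟩ : ∃ u, t = u + 1 := ⟨t - 1, by omega⟩
  rw [Nat.testBit_succ]; simp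

theorem ba_A : ∀ s < 9, (1 ≤ ba 0 (s + 1) ∧ ba 0 (s + 1) - 1 < 9) ∧
    (1 ≤ ba 1 (s + 1) ∧ ba 1 (s + 1) - 1 < 9) ∧ (1 ≤ ba 3 (s + 1) ∧ ba 3 (s + 1) - 1 < 9) ∧
    ba 5 (s + 1) = s + 1 := by decide +kernel

theorem ba_B : ∀ s < 9, ba 0 (bB s) = bB (ba 0 (s + 1) - 1) ∧
    ba 1 (bB s) = bB (ba 1 (s + 1) - 1) ∧ ba 5 (bB s) = bB (ba 3 (s + 1) - 1) ∧
    ba 3 (bB s) = bB s ∧ bB s < 35 := by decide +kernel

theorem ba_0 : ba 0 0 = 0 ∧ ba 1 0 = 0 ∧ ba 3 0 = 0 ∧ ba 5 0 = 0 := by decide +kernel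

theorem cA_tau (i m : Nat) (hi : i = 0 ∨ i = 1 ∨ i = 3) : cA (tau i m) = a3 i (cA m) := by
  refine eq9 (cA_lt _) (a3_lt _ _) fun s hs => ?_
  have hi6 : i < 6 := by omega
  have hb : 1 ≤ ba i (s + 1) ∧ ba i (s + 1) - 1 < 9 := by
    obtain ⟨h0, h1, h3, -⟩ := ba_A s hs
    rcases hi with rfl | rfl | rfl <;> assumption
  rw [cA_bit _ _ hs, a3_bit _ _ _ hi6 hs, tau_bit _ _ _ hi6 (by omega),
    two_mul_bit _ _ hb.1, cA_bit _ _ hb.2]
  congr 1
  omega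

theorem cA_tau5 (m : Nat) : cA (tau 5 m) = cA m := by
  refine eq9 (cA_lt _) (cA_lt _) fun s hs => ?_
  rw [cA_bit _ _ hs, cA_bit _ _ hs, tau_bit _ _ _ (by omega) (by omega), (ba_A s hs).2.2.2]

theorem cB_tau (i m : Nat) (hi : i = 0 ∨ i = 1) : cB (tau i m) = a3 i (cB m) := by
  refine eq9 (cB_lt _) (a3_lt _ _) fun s hs => ?_
  have hi6 : i < 6 := by omega
  have hb : 1 ≤ ba i (s + 1) ∧ ba i (s + 1) - 1 < 9 := by
    obtain ⟨h0, h1, h3, -⟩ := ba_A s hs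
    rcases hi with rfl | rfl <;> assumption
  have hc : ba i (bB s) = bB (ba i (s + 1) - 1) := by
    obtain ⟨h0, h1, -⟩ := ba_B s hs
    rcases hi with rfl | rfl <;> assumption
  rw [cB_bit _ _ hs, a3_bit _ _ _ hi6 hs, tau_bit _ _ _ hi6 (ba_B s hs).2.2.2.2,
    two_mul_bit _ _ hb.1, cB_bit _ _ hb.2, hc]

theorem cB_tau3 (m : Nat) : cB (tau 3 m) = cB m := by
  refine eq9 (cB_lt _) (cB_lt _) fun s hs => ?_
  rw [cB_bit _ _ hs, cB_bit _ _ hs, tau_bit _ _ _ (by omega) (ba_B s hs).2.2.2.2,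
    (ba_B s hs).2.2.2.1]

theorem cB_tau5 (m : Nat) : cB (tau 5 m) = a3 3 (cB m) := by
  refine eq9 (cB_lt _) (a3_lt _ _) fun s hs => ?_
  obtain ⟨-, -, hb, -⟩ := ba_A s hs
  rw [cB_bit _ _ hs, a3_bit _ _ _ (by omega) hs, tau_bit _ _ _ (by omega) (ba_B s hs).2.2.2.2,
    two_mul_bit _ _ hb.1, cB_bit _ _ hb.2, (ba_B s hs).2.2.1]

theorem awl_bit {l : List Nat} (hl : wok l = true) {m : Nat} (hm : m < 2 ^ 35) {t : Nat}
    (ht : t < 35) : (awl l m).testBit t =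
      bt m (vw l (f7 (KC.tri t).1)) (vw l (f7 (KC.tri t).2.1)) (vw l (f7 (KC.tri t).2.2)) := by
  rw [← awl_bt l hl hm]
  unfold bt
  rw [tri_ixs t ht]

theorem blk_A : ∀ s < 9, ixs (vw [4, 3, 5, 4] (f7 (KC.tri (s + 1)).1)).1
    (vw [4, 3, 5, 4] (f7 (KC.tri (s + 1)).2.1)).1 (vw [4, 3, 5, 4] (f7 (KC.tri (s + 1)).2.2)).1 =
      bB s := by decide +kernel

theorem blk_B : ∀ s < 9, ixs (vw [4, 3, 5, 4] (f7 (KC.tri (bB s)).1)).1
    (vw [4, 3, 5, 4] (f7 (KC.tri (bB s)).2.1)).1 (vw [4, 3, 5, 4] (f7 (KC.tri (bB s)).2.2)).1 =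
      s + 1 := by decide +kernel

theorem blk_0 : ixs (vw [4, 3, 5, 4] (f7 (KC.tri 0).1)).1
    (vw [4, 3, 5, 4] (f7 (KC.tri 0).2.1)).1 (vw [4, 3, 5, 4] (f7 (KC.tri 0).2.2)).1 = 0 := by
  decide +kernel

theorem cA_blk {m : Nat} (hm : m < 2 ^ 35) : cA (awl [4, 3, 5, 4] m) = cB m := by
  refine eq9 (cA_lt _) (cB_lt _) fun s hs => ?_
  rw [cA_bit _ _ hs, cB_bit _ _ hs, awl_bit rfl hm (by omega), bt, blk_A s hs]

theorem cB_blk {m : Nat} (hm : m < 2 ^ 35) : cB (awl [4, 3, 5, 4] m) = cA m := by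
  refine eq9 (cB_lt _) (cA_lt _) fun s hs => ?_
  rw [cB_bit _ _ hs, cA_bit _ _ hs, awl_bit rfl hm (ba_B s hs).2.2.2.2, bt, blk_B s hs]

theorem mod2_bit (m : Nat) : m % 2 = (m.testBit 0).toNat := by
  rw [Nat.testBit_zero]
  rcases Nat.mod_two_eq_zero_or_one m with h | h <;> simp [h]

theorem mod2_tau (i m : Nat) (hi : i = 0 ∨ i = 1 ∨ i = 3 ∨ i = 5) : tau i m % 2 = m % 2 := by
  have : ba i 0 = 0 := by
    obtain ⟨h0, h1, h3, h5⟩ := ba_0
    rcases hi with rfl | rfl | rfl | rfl <;> assumption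
  rw [mod2_bit, mod2_bit, tau_bit _ _ _ (by omega) (by omega), this]

theorem mod2_blk {m : Nat} (hm : m < 2 ^ 35) : awl [4, 3, 5, 4] m % 2 = m % 2 := by
  rw [mod2_bit, mod2_bit, awl_bit rfl hm (by omega), bt, blk_0]

theorem rt_cA (m : Nat) : rt m = m % 2 + 2 * cA m := by
  unfold rt cA
  omega

theorem vio0_cA {m : Nat} (h : Adm m) : vio0 (m % 2 + 2 * cA m) = false := by
  rw [← rt_cA]; exact vio0_rt h

theorem vio0_cB {m : Nat} (h : Adm m) : vio0 (m % 2 + 2 * cB m) = false := by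
  have := vio0_cA (adm_awl [4, 3, 5, 4] rfl h)
  rwa [mod2_blk h.lt, cA_blk h.lt] at this

end KC
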