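import Pool.Agent.Helper13.KC.S5

set_option autoImplicit false

/-!
Table form of the terms with five roots, and its invariance.
-/

namespace KC

open KF

/-- The tables of the five-root terms. -/
structure Tab where
  CW : BT
  FI : BT
  FL : BT
  QT : BT
  RB : Nat
  NF : Nat
  SG : Nat
  OFF : Nat
  NT : Nat

namespace Tab

variable (T : Tab)

/-- Code of the canonical word and type of a root mask. -/
noncomputable def cw (r : Nat) : Nat := pk T.CW 40 1099511627775 r
/-- Type. -/
noncomputable def ty (r : Nat) : Nat := Nat.land (T.cw r) 15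
/-- Canonical word. -/
noncomputable def wr (r : Nat) : List Nat := decw 12 (Nat.shiftRight (T.cw r) 4)
/-- Flag index of a link mask. -/
noncomputable def fi (t l : Nat) : Nat := pk T.FI 16 65535 (Nat.add (Nat.mul t 1024) l)
/-- Link mask of a flag. -/
noncomputable def fl (t f : Nat) : Nat := pk T.FL 16 65535 (Nat.add (Nat.mul t 512) f)
/-- Number of flags. -/
def nf (t : Nat) : Nat := ent T.NF 16 65535 t
/-- First row. -/
def rb (t : Nat) : Nat := ent T.RB 16 65535 t
/-- Root mask of the type. -/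
def sg (t : Nat) : Nat := ent T.SG 16 65535 t
/-- Entry of the quadratic form, with offset. -/
noncomputable def qe (t f g : Nat) : Nat :=
  Nat.land (Nat.shiftRight (T.QT.get (Nat.add (T.rb t) f)) (Nat.mul 96 g))
    79228162514264337593543950335
/-- Entry of the quadratic form. -/
noncomputable def qi (t f g : Nat) : ℤ := (T.qe t f g : ℤ) - T.OFF

/-- Coefficient for labelled roots. -/
noncomputable def Q5 (r a b : Nat) : ℤ :=
  T.qi (T.ty r) (T.fi (T.ty r) (al5 (T.wr r) a)) (T.fi (T.ty r) (al5 (T.wr r) b))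
/-- The integrand. -/
noncomputable def G5 (m : Nat) : ℤ := T.Q5 (rt m) (lk5 m) (lk6 m)

/-- Kernel version (with offset). -/
noncomputable def g5K (m : Nat) : Nat :=
  fc (T.cw (Nat.land m 1023)) fun c =>
  fc (awN 12 (Nat.shiftRight c 4) m) fun m' =>
  fc (Nat.land c 15) fun t =>
  T.qe t (T.fi t (Nat.land (Nat.shiftRight m' 10) 1023))
    (T.fi t (Nat.land (Nat.shiftRight m' 20) 1023))

/-- Words and types are in range. -/
noncomputable def ck1 : Bool :=
  (List.range 1024).all fun r => w4 (T.wr r) && Nat.blt (T.ty r) T.NT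

/-- Certificate of the canonical labelling. -/
noncomputable def ck2 (gens : Nat → List (List Nat)) (cert : List (Nat × List (List Nat))) :
    Bool :=
  cert.all fun c => Nat.beq (rt (awl (T.wr c.1) c.1)) (T.sg (T.ty c.1)) &&
    (List.range 4).all fun j =>
      Nat.beq (T.ty (rt (tau j c.1))) (T.ty c.1) &&
      eq7 (j :: T.wr (rt (tau j c.1))) (T.wr c.1 ++ flat (gens (T.ty c.1)) (c.2.getD j []))

/-- Every admissible root mask is in the certificate. -/
def ck3 (cert : List (Nat × List (List Nat))) : Bool :=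
  (List.range 1024).all fun r => vio0 r || cert.any fun c => Nat.beq r c.1

/-- The flag index is correct. -/
noncomputable def ck4 (t : Nat) : Bool :=
  (List.range 1024).all fun l => Nat.blt (T.fi t l) (T.nf t) &&
    (vio (T.sg t) l || Nat.beq (T.fl t (T.fi t l)) l)

/-- Generators fix the type. -/
def ck5 (gens : List (List Nat)) (t : Nat) : Bool :=
  gens.all fun W => w4 W && Nat.beq (rt (awl W (T.sg t))) (T.sg t)

/-- Generator number `W` preserves the form: row `f`. -/
def InvRow (W : List Nat) (t f : Nat) : Prop :=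
  ∀ g < T.nf t, T.qe t (T.fi t (al5 W (T.fl t f))) (T.fi t (al5 W (T.fl t g))) = T.qe t f g

/-- All the checks. -/
structure Good (gens : Nat → List (List Nat)) (cert : List (Nat × List (List Nat))) : Prop where
  c1 : T.ck1 = true
  c2 : T.ck2 gens cert = true
  c3 : ck3 cert = true
  c4 : ∀ t < T.NT, T.ck4 t = true
  c5 : ∀ t < T.NT, T.ck5 (gens t) t = true
  c6 : ∀ t < T.NT, ∀ W ∈ gens t, ∀ f < T.nf t, T.InvRow W t f
  sym : ∀ t < T.NT, ∀ f < T.nf t, ∀ g < T.nf t, T.qe t f g = T.qe t g f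

variable {T} {gens : Nat → List (List Nat)} {cert : List (Nat × List (List Nat))}

theorem Good.w4r (h : T.Good gens cert) {r : Nat} (hr : r < 2 ^ 10) : w4 (T.wr r) = true := by
  have := h.c1
  simp only [ck1, List.all_eq_true, List.mem_range, Bool.and_eq_true] at this
  exact (this r hr).1

theorem Good.tyr (h : T.Good gens cert) {r : Nat} (hr : r < 2 ^ 10) : T.ty r < T.NT := by
  have := h.c1
  simp only [ck1, List.all_eq_true, List.mem_range, Bool.and_eq_true] at this
  exact (Nat.blt_eq ▸ (this r hr).2)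

theorem Good.fi_lt (h : T.Good gens cert) {t l : Nat} (ht : t < T.NT) (hl : l < 2 ^ 10) :
    T.fi t l < T.nf t := by
  have := h.c4 t ht
  simp only [ck4, List.all_eq_true, List.mem_range, Bool.and_eq_true] at this
  exact (Nat.blt_eq ▸ (this l hl).1)

theorem Good.fl_fi (h : T.Good gens cert) {t l : Nat} (ht : t < T.NT) (hl : l < 2 ^ 10)
    (hv : vio (T.sg t) l = false) : T.fl t (T.fi t l) = l := by
  have := h.c4 t ht
  simp only [ck4, List.all_eq_true, List.mem_range, Bool.and_eq_true] at this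
  have h2 := (this l hl).2
  rw [hv, Bool.false_or] at h2
  exact Nat.eq_of_beq_eq_true h2

/-- The integrand in terms of a canonically labelled mask. -/
noncomputable def H5 (T : Tab) (t m : Nat) : ℤ := T.qi t (T.fi t (lk5 m)) (T.fi t (lk6 m))

theorem H5_gen (h : T.Good gens cert) {t : Nat} (ht : t < T.NT) {W : List Nat}
    (hW : W ∈ gens t) {m : Nat} (hm : Adm m) (hr : rt m = T.sg t) :
    H5 T t (awl W m) = H5 T t m ∧ rt (awl W m) = T.sg t ∧ Adm (awl W m) := by
  have h5 := h.c5 t ht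
  simp only [ck5, List.all_eq_true, Bool.and_eq_true] at h5
  obtain ⟨hw4, hfix⟩ := h5 W hW
  refine ⟨?_, ?_, adm_awl _ (w4_wok hw4) hm⟩
  · have a1 := h.fl_fi ht (lk5_lt m) (by rw [← hr]; exact vio_lk5 hm)
    have a2 := h.fl_fi ht (lk6_lt m) (by rw [← hr]; exact vio_lk6 hm)
    have key := h.c6 t ht W hW _ (h.fi_lt ht (lk5_lt m)) _ (h.fi_lt ht (lk6_lt m))
    rw [a1, a2] at key
    rw [H5, H5, lk5_awl _ _ hw4, lk6_awl _ _ hw4, qi, qi, key]
  · rw [rt_awl _ _ hw4, hr]
    exact Nat.eq_of_beq_eq_true hfix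

theorem H5_flat (h : T.Good gens cert) {t : Nat} (ht : t < T.NT) :
    ∀ (l : List Nat) {m : Nat}, Adm m → rt m = T.sg t →
    H5 T t (awl (flat (gens t) l) m) = H5 T t m
  | [], _, _, _ => rfl
  | k :: l, m, hm, hr => by
    rw [flat, awl_append]
    by_cases hk : k < (gens t).length
    · have hmem : (gens t).getD k [] ∈ gens t := by
        rw [List.getD_eq_getElem _ _ hk]
        exact List.getElem_mem hk
      obtain ⟨h1, h2, h3⟩ := H5_gen h ht hmem hm hr
      rw [H5_flat h ht l h3 h2, h1]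
    · rw [List.getD_eq_default _ _ (by omega)]
      exact H5_flat h ht l hm hr

theorem G5_eq (h : T.Good gens cert) (m : Nat) :
    T.G5 m = H5 T (T.ty (rt m)) (awl (T.wr (rt m)) m) := by
  rw [G5, Q5, H5, lk5_awl _ _ (h.w4r (rt_lt m)), lk6_awl _ _ (h.w4r (rt_lt m))]

theorem wok_gens (h : T.Good gens cert) {t : Nat} (ht : t < T.NT) :
    ∀ W ∈ gens t, wok W = true := by
  intro W hW
  have h5 := h.c5 t ht
  simp only [ck5, List.all_eq_true, Bool.and_eq_true] at h5
  exact w4_wok (h5 W hW).1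

theorem G5_tau (h : T.Good gens cert) {m : Nat} (hm : Adm m) {j : Nat} (hj : j < 4) :
    T.G5 (tau j m) = T.G5 m := by
  have h3 := h.c3
  simp only [ck3, List.all_eq_true, List.mem_range] at h3
  have h3' := h3 (rt m) (rt_lt m)
  rw [vio0_rt hm, Bool.false_or, List.any_eq_true] at h3'
  obtain ⟨c, hc, hcr⟩ := h3'
  have hcr := Nat.eq_of_beq_eq_true hcr
  have h2 := h.c2
  simp only [ck2, List.all_eq_true, Bool.and_eq_true, List.mem_range] at h2
  obtain ⟨h4, h5⟩ := h2 c hc
  obtain ⟨h6, h7⟩ := h5 j hj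
  rw [← hcr] at h4 h6 h7
  have h4 := Nat.eq_of_beq_eq_true h4
  have h6 := Nat.eq_of_beq_eq_true h6
  have hty := h.tyr (rt_lt m)
  rw [← rt_tau j m hj] at h6 h7
  have hw := h.w4r (rt_lt m)
  have hw' := h.w4r (rt_lt (tau j m))
  have e : awl (T.wr (rt (tau j m))) (tau j m) =
      awl (T.wr (rt m) ++ flat (gens (T.ty (rt m))) (c.2.getD j [])) m :=
    awl_of_eq7 (l := j :: T.wr (rt (tau j m))) (wok_cons.2 ⟨by omega, w4_wok hw'⟩)
      (wok_append (w4_wok hw) (wok_flat (wok_gens h hty) _)) h7 hm.lt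
  rw [G5_eq h, G5_eq h m, h6, e, awl_append]
  refine H5_flat h hty _ (adm_awl _ (w4_wok hw) hm) ?_
  rw [rt_awl _ _ hw, h4]

theorem al5_lt : ∀ (W : List Nat) {l : Nat}, l < 2 ^ 10 → al5 W l < 2 ^ 10
  | [], _, h => h
  | _ :: W, _, _ => al5_lt W (lk5_lt _)

theorem G5_tau5 (h : T.Good gens cert) (m : Nat) : T.G5 (tau 5 m) = T.G5 m := by
  rw [G5, G5, rt_tau5, lk5_tau5, lk6_tau5, Q5, Q5, qi, qi]
  rw [h.sym _ (h.tyr (rt_lt m)) _ (h.fi_lt (h.tyr (rt_lt m)) (al5_lt _ (lk6_lt m))) _
    (h.fi_lt (h.tyr (rt_lt m)) (al5_lt _ (lk5_lt m)))]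

theorem G5_inv (h : T.Good gens cert) :
    ∀ W ∈ ([[0], [1], [2], [3], [5]] : List (List Nat)), ∀ m, Adm m →
      T.G5 (awl W m) = T.G5 m := by
  intro W hW m hm
  simp only [List.mem_cons, List.not_mem_nil, or_false] at hW
  rcases hW with rfl | rfl | rfl | rfl | rfl
  · exact G5_tau (j := 0) h hm (by norm_num)
  · exact G5_tau (j := 1) h hm (by norm_num)
  · exact G5_tau (j := 2) h hm (by norm_num)
  · exact G5_tau (j := 3) h hm (by norm_num)
  · exact G5_tau5 h m

theorem land10 (x : Nat) : Nat.land x 1023 = rt x := by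
  have := land_mod x 10
  rw [show (2 : Nat) ^ 10 - 1 = 1023 by norm_num] at this
  exact this

theorem g5K_eq (h : T.Good gens cert) (m : Nat) :
    ((T.g5K m : Nat) : ℤ) = T.G5 m + T.OFF := by
  rw [g5K, fc_eq, fc_eq, fc_eq]
  have e2 : ∀ x : Nat, Nat.land (Nat.shiftRight x 10) 1023 = lk5 x := fun x => by
    rw [shift_div, land10]; rfl
  have e3 : ∀ x : Nat, Nat.land (Nat.shiftRight x 20) 1023 = lk6 x := fun x => by
    rw [shift_div, land10]; rfl
  rw [land10, awN_eq, e2, e3]
  rw [G5_eq h, H5, qi]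
  simp only [ty, wr]
  ring

/-- The forms are positive semidefinite for every root mask. -/
theorem psd5 (h : T.Good gens cert)
    (hp : ∀ t < T.NT, ∀ x : Nat → ℝ, 0 ≤ ∑ f ∈ Finset.range (T.nf t), ∑ g ∈ Finset.range (T.nf t),
      ((T.qi t f g : ℤ) : ℝ) * x f * x g) {r : Nat} (hr : r < 2 ^ 10) (f : Nat → ℝ) :
    0 ≤ ∑ a ∈ Finset.range 1024, ∑ b ∈ Finset.range 1024,
      ((T.Q5 r a b : ℤ) : ℝ) * f a * f b := by
  classical
  set t := T.ty r with ht
  have htN : t < T.NT := h.tyr hr
  set I : Nat → Nat := fun a => T.fi t (al5 (T.wr r) a) with hI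
  have hIlt : ∀ a ∈ Finset.range 1024, I a ∈ Finset.range (T.nf t) := fun a ha =>
    Finset.mem_range.2 (h.fi_lt htN (al5_lt _ (Finset.mem_range.1 ha)))
  set X : Nat → ℝ := fun i => ∑ a ∈ (Finset.range 1024).filter (fun a => I a = i), f a with hX
  have key : ∑ a ∈ Finset.range 1024, ∑ b ∈ Finset.range 1024,
      ((T.Q5 r a b : ℤ) : ℝ) * f a * f b =
      ∑ i ∈ Finset.range (T.nf t), ∑ j ∈ Finset.range (T.nf t),
        ((T.qi t i j : ℤ) : ℝ) * X i * X j := by
    rw [← Finset.sum_fiberwise_of_maps_to hIlt]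
    refine Finset.sum_congr rfl fun i _ => ?_
    have : ∀ a ∈ (Finset.range 1024).filter (fun a => I a = i),
        ∑ b ∈ Finset.range 1024, ((T.Q5 r a b : ℤ) : ℝ) * f a * f b =
        f a * ∑ j ∈ Finset.range (T.nf t), ((T.qi t i j : ℤ) : ℝ) * X j := by
      intro a ha
      obtain ⟨-, ha⟩ := Finset.mem_filter.1 ha
      rw [← Finset.sum_fiberwise_of_maps_to hIlt, Finset.mul_sum]
      refine Finset.sum_congr rfl fun j _ => ?_
      rw [hX, Finset.mul_sum, Finset.mul_sum]
      refine Finset.sum_congr rfl fun b hb => ?_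
      obtain ⟨-, hb⟩ := Finset.mem_filter.1 hb
      have : T.Q5 r a b = T.qi t i j := by
        rw [Q5, ← ht]
        simp only [hI] at ha hb
        rw [ha, hb]
      rw [this]; ring
    rw [Finset.sum_congr rfl this, ← Finset.sum_mul]
    rw [Finset.mul_sum]
    refine Finset.sum_congr rfl fun j _ => ?_
    rw [hX]; ring
  rw [key]
  exact hp t htN X

end Tab

end KC
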