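import Pool.Agent.Helper13.KC.Fam
import Pool.Agent.Helper13.KC.BT

set_option autoImplicit false

/-!
Trees of words: the transversals, evaluated with one swap per node.
-/

namespace KC

/-- Tree of words: `B i c s` = a child reached by the letter `i` which is counted, with its
subtree `c`, and the remaining siblings `s`; `S` = the same, not counted. -/
inductive WT
  | E
  | B (i : Nat) (c s : WT)
  | S (i : Nat) (c s : WT)

namespace WT

/-- Words of the tree, starting from the word `W`. -/
def words : WT → List Nat → List (List Nat)
  | E, _ => []
  | B i c s, W => (W ++ [i]) :: (words c (W ++ [i]) ++ words s W)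
  | S i c s, W => words c (W ++ [i]) ++ words s W

/-- The transversal. -/
def tr (t : WT) : List (List Nat) := [] :: words t []

/-- Sum of a natural-number valued function over the tree, for the kernel. -/
noncomputable def sumK (g : Nat → Nat) (t : WT) : Nat → Nat → Nat :=
  WT.rec (motive := fun _ => Nat → Nat → Nat)
    (fun _ acc => acc)
    (fun i _ _ ic is m acc => is m (fc (tau i m) (fun m' => fc (Nat.add acc (g m')) (ic m'))))
    (fun i _ _ ic is m acc => is m (fc (tau i m) (fun m' => ic m' acc))) t

theorem sumK_eq (g : Nat → Nat) : ∀ (t : WT) (W : List Nat) (m acc : Nat),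
    sumK g t (awl W m) acc = acc + ((words t W).map (fun U => g (awl U m))).sum
  | E, _, _, _ => rfl
  | B i c s, W, m, acc => by
    change sumK g s (awl W m) (fc (tau i (awl W m)) (fun m' => fc (Nat.add acc (g m'))
      (sumK g c m'))) = _
    have e : tau i (awl W m) = awl (W ++ [i]) m := by rw [awl_append]; rfl
    rw [sumK_eq g s W m, fc_eq, fc_eq, e, sumK_eq g c (W ++ [i]) m]
    simp only [words, List.map_cons, List.map_append, List.sum_cons, List.sum_append,
      Nat.add_eq]
    ring
  | S i c s, W, m, acc => by
    change sumK g s (awl W m) (fc (tau i (awl W m)) (fun m' => sumK g c m' acc)) = _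
    have e : tau i (awl W m) = awl (W ++ [i]) m := by rw [awl_append]; rfl
    rw [sumK_eq g s W m, fc_eq, e, sumK_eq g c (W ++ [i]) m]
    simp only [words, List.map_append, List.sum_append]
    ring

/-- Kernel version of the family sum (natural numbers). -/
noncomputable def famK (t : WT) (g : Nat → Nat) (m acc : Nat) : Nat :=
  sumK g t m (Nat.add acc (g m))

theorem famK_eq (t : WT) (g : Nat → Nat) (m acc : Nat) :
    famK t g m acc = acc + (t.tr.map (fun U => g (awl U m))).sum := by
  have := sumK_eq g t [] m (Nat.add acc (g m))
  rw [awl] at this
  rw [famK, this, tr, List.map_cons, List.sum_cons, awl, Nat.add_eq]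
  ring

/-- With an offset: integer valued integrands. -/
theorem famK_int (t : WT) (g : Nat → Nat) (G : Nat → ℤ) (off : ℤ) (m acc : Nat)
    (h : ∀ U ∈ t.tr, ((g (awl U m) : Nat) : ℤ) = G (awl U m) + off) :
    ((famK t g m acc : Nat) : ℤ) = acc + fam t.tr G m + t.tr.length * off := by
  rw [famK_eq, Nat.cast_add, fam, add_assoc]
  congr 1
  generalize t.tr = l at h
  induction l with
  | nil => simp
  | cons a l ih =>
    have h1 := h a List.mem_cons_self
    have h2 := ih (fun U hU => h U (List.mem_cons_of_mem _ hU))
    simp only [List.map_cons, List.sum_cons, Nat.cast_add, List.length_cons, h1, h2]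
    push_cast
    ring

end WT

end KC
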